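import Pool.Agent.SR3.G.FitU

/-!
# SR3 G MemG: good points near the origin, the growth of the members
-/

set_option autoImplicit false

open Topology Filter Metric

noncomputable section

namespace Pool.Agent.SR3.G


open Pool.Agent.H36.BP (EN)
open Pool.Agent.SR3 (Geo)
open Pool.Agent.SR3.Geo (Gd)

variable {N : ℕ} {G : Geo N} {T : Set (EN N)} {rho : EN N → ℝ} {δ γ A' B : ℝ} {β β' : G.ι → ℝ} {q : G.J → ℂ} {F : ℂ → EN N}

/-- from `gapD` -/
theorem exists_good_near (hf : Facts G T rho δ γ A' B) (B₁ : ℝ) :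
    ∃ R : ℝ, 0 ≤ R ∧ ∀ (q : G.J → ℂ) (F : ℂ → EN N), G.Cl T q F → ‖F 0‖ ≤ B₁ → ∃ a ∈ Gd rho δ F, ‖a‖ ≤ R := by
  obtain ⟨R, hR⟩ := hf.gapD (Real.log (max B₁ 1))
  refine ⟨max R 0 + 1, by positivity, fun q F hF h0 => ?_⟩
  have h1 : Real.log ‖F 0‖ ≤ Real.log (max B₁ 1) := by
    rcases (norm_nonneg (F 0)).eq_or_lt with h2 | h2
    · rw [← h2, Real.log_zero]
      exact Real.log_nonneg (le_max_right _ _)
    · exact Real.log_le_log h2 (h0.trans (le_max_left _ _))
  have h2 := hR q F hF 0 h1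
  have h3 : infDist 0 (Gd rho δ F) < max R 0 + 1 := by
    have := le_max_left R 0
    linarith
  obtain ⟨a, ha, hd⟩ := (infDist_lt_iff (hf.good q F hF)).1 h3
  refine ⟨a, ha, ?_⟩
  rw [dist_eq_norm, zero_sub, norm_neg] at hd
  exact hd.le

/-- from `fits_all`, `exists_good_near` and `G.Ok.cmp` (`p (F z) = 1`): `h log ‖F‖ = ∑ b i lam i + O(1)` -/
theorem mem_log (hG : G.Ok) (hf : Facts G T rho δ γ A' B) (β β' : G.ι → ℝ) (B₁ : ℝ) :
    ∃ c C : ℝ, 0 < c ∧ 0 ≤ C ∧ ∀ (q : G.J → ℂ) (F : ℂ → EN N), Mem G T rho δ γ A' B β β' q F → ‖F 0‖ ≤ B₁ → ∀ z : ℂ,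
      c * |z.im| - C * pw γ ‖z‖ ≤ Real.log ‖F z‖ ∧ Real.log ‖F z‖ ≤ C * (|z.im| + pw γ ‖z‖) := by
  obtain ⟨R, hR0, hR⟩ := exists_good_near hf B₁
  obtain ⟨Cc, hCc⟩ := hG.cmp
  have hγ := hf.str.γ_pos
  have hγ1 := hf.str.γ_lt
  have hA' := hf.str.A'_pos
  have hB := hf.str.B_pos
  have hh : (1 : ℝ) ≤ G.h := by
    have := hG.aff.pos ()
    exact_mod_cast this
  have hh0 : (0 : ℝ) < G.h := by linarith
  set S : ℝ := ∑ i, (G.b i : ℝ) * (|β i| + |β' i|) with hS
  have hS0 : 0 ≤ S := by positivity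
  set b : ℝ := ∑ i, (G.b i : ℝ) with hb
  have hb0 : 0 ≤ b := by positivity
  set C : ℝ := S * (1 + R) + b * B * (1 + R) + |Cc| + A' * R with hC
  have hC0 : 0 ≤ C := by positivity
  refine ⟨A' / G.h, C, by positivity, hC0, fun q F hm h0 z => ?_⟩
  obtain ⟨a, ha, haR⟩ := hR q F hm.cl h0
  have hfit := fits_all hf.str hm ha
  set y : ℝ := (z - a).im with hy
  have hyy : yy Complex.I a z = y := by
    unfold yy
    rw [hy]
    simp
  set p : ℝ := pw γ ‖z‖ with hp
  have hp1 : 1 ≤ p := by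
    rw [hp]
    exact Real.one_le_rpow (by linarith [norm_nonneg z]) hγ.le
  have hpa : Pool.Agent.SR3.pw γ ‖z - a‖ ≤ (1 + R) * p := by
    have e1 : ‖z - a‖ ≤ ‖z‖ + R := (norm_sub_le _ _).trans (by linarith)
    have e2 : (2 + ‖z - a‖) ≤ (1 + R) * (2 + ‖z‖) := by nlinarith [norm_nonneg z]
    calc (2 + ‖z - a‖) ^ γ ≤ ((1 + R) * (2 + ‖z‖)) ^ γ := Real.rpow_le_rpow (by positivity) e2 hγ.le
      _ = (1 + R) ^ γ * (2 + ‖z‖) ^ γ := Real.mul_rpow (by linarith) (by positivity)
      _ ≤ (1 + R) * (2 + ‖z‖) ^ γ := by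
          apply mul_le_mul_of_nonneg_right _ (by positivity)
          calc (1 + R) ^ γ ≤ (1 + R) ^ (1 : ℝ) := Real.rpow_le_rpow_of_exponent_le (by linarith) hγ1.le
            _ = 1 + R := Real.rpow_one _
  have hy1 : |y| ≤ |z.im| + R := by
    rw [hy, Complex.sub_im]
    refine (abs_sub _ _).trans ?_
    have := Complex.abs_im_le_norm a
    linarith
  have hy2 : |z.im| - R ≤ |y| := by
    rw [hy, Complex.sub_im]
    have h1 := abs_sub_abs_le_abs_sub z.im a.im
    have := Complex.abs_im_le_norm a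
    linarith
  have hcmp := abs_le.1 (hCc (F z) (hm.cl.ent.mem z))
  rw [hm.cl.nm z, norm_one, Real.log_one, sub_zero] at hcmp
  have hCabs := le_abs_self Cc
  have hlin : ∀ i, |G.lam i (F z) - lin Complex.I a (β i) (β' i) z| ≤ B * ((1 + R) * p) := fun i =>
    (hfit.2.2 z (Set.mem_univ z) i).trans (mul_le_mul_of_nonneg_left hpa hB.le)
  have hb1 : ∀ i, (1 : ℝ) ≤ G.b i := fun i => by exact_mod_cast hG.b_pos i
  have hnn : ∀ i, 0 ≤ β i ∧ 0 ≤ β' i := hfit.2.1
  have hup : ∀ i, lin Complex.I a (β i) (β' i) z ≤ (|β i| + |β' i|) * |y| := by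
    intro i
    unfold lin
    rw [hyy]
    have e1 : max y 0 ≤ |y| := max_le (le_abs_self y) (abs_nonneg y)
    have e2 : max (-y) 0 ≤ |y| := max_le (neg_le_abs y) (abs_nonneg y)
    have e3 : β i * max y 0 ≤ |β i| * |y| := mul_le_mul (le_abs_self _) e1 (le_max_right _ _) (abs_nonneg _)
    have e4 : β' i * max (-y) 0 ≤ |β' i| * |y| := mul_le_mul (le_abs_self _) e2 (le_max_right _ _) (abs_nonneg _)
    linarith
  have hlow : A' * |y| ≤ ∑ i, (G.b i : ℝ) * lin Complex.I a (β i) (β' i) z := by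
    have e1 : ∑ i, lin Complex.I a (β i) (β' i) z ≤ ∑ i, (G.b i : ℝ) * lin Complex.I a (β i) (β' i) z := by
      apply Finset.sum_le_sum
      intro i _
      have e2 : 0 ≤ lin Complex.I a (β i) (β' i) z := by
        unfold lin
        have := hnn i
        have := le_max_right (yy Complex.I a z) 0
        have := le_max_right (-yy Complex.I a z) 0
        nlinarith [mul_nonneg (hnn i).1 (le_max_right (yy Complex.I a z) 0), mul_nonneg (hnn i).2 (le_max_right (-yy Complex.I a z) 0)]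
      nlinarith [hb1 i]
    refine le_trans ?_ e1
    unfold lin
    rw [hyy, Finset.sum_add_distrib, ← Finset.sum_mul, ← Finset.sum_mul]
    rcases le_total 0 y with h1 | h1
    · rw [abs_of_nonneg h1, max_eq_left h1, max_eq_right (by linarith), mul_zero, add_zero]
      exact mul_le_mul_of_nonneg_right hm.sum h1
    · rw [abs_of_nonpos h1, max_eq_right h1, max_eq_left (by linarith), mul_zero, zero_add]
      exact mul_le_mul_of_nonneg_right hm.sum' (by linarith)
  have hsum1 : ∑ i, (G.b i : ℝ) * G.lam i (F z) ≤ S * |y| + b * (B * ((1 + R) * p)) := by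
    rw [hS, hb, Finset.sum_mul, Finset.sum_mul, ← Finset.sum_add_distrib]
    apply Finset.sum_le_sum
    intro i _
    have e1 := (abs_le.1 (hlin i)).2
    have e2 := hup i
    have e3 : G.lam i (F z) ≤ (|β i| + |β' i|) * |y| + B * ((1 + R) * p) := by linarith
    calc (G.b i : ℝ) * G.lam i (F z) ≤ (G.b i : ℝ) * ((|β i| + |β' i|) * |y| + B * ((1 + R) * p)) :=
          mul_le_mul_of_nonneg_left e3 (by positivity)
      _ = _ := by ring
  have hsum2 : ∑ i, (G.b i : ℝ) * lin Complex.I a (β i) (β' i) z - b * (B * ((1 + R) * p)) ≤ ∑ i, (G.b i : ℝ) * G.lam i (F z) := by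
    rw [hb, Finset.sum_mul, ← Finset.sum_sub_distrib]
    apply Finset.sum_le_sum
    intro i _
    have e1 := (abs_le.1 (hlin i)).1
    have e3 : lin Complex.I a (β i) (β' i) z - B * ((1 + R) * p) ≤ G.lam i (F z) := by linarith
    calc _ = (G.b i : ℝ) * (lin Complex.I a (β i) (β' i) z - B * ((1 + R) * p)) := by ring
      _ ≤ _ := mul_le_mul_of_nonneg_left e3 (by positivity)
  have hz0 : 0 ≤ |z.im| := abs_nonneg _
  have hRp : R ≤ R * p := le_mul_of_one_le_right hR0 hp1
  have hCp : |Cc| ≤ |Cc| * p := le_mul_of_one_le_right (abs_nonneg _) hp1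
  have hARp : A' * R ≤ A' * R * p := le_mul_of_one_le_right (by positivity) hp1
  have hbB : 0 ≤ b * B * (1 + R) := by positivity
  constructor
  · -- lower bound
    have e1 : A' * |z.im| - C * p ≤ G.h * Real.log ‖F z‖ := by
      have e2 : A' * (|z.im| - R) ≤ A' * |y| := mul_le_mul_of_nonneg_left hy2 hA'.le
      have e3 : 0 ≤ S * (1 + R) * p := by positivity
      have e4 : C * p = S * (1 + R) * p + b * (B * ((1 + R) * p)) + |Cc| * p + A' * R * p := by rw [hC]; ring
      rw [e4]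
      linarith [hcmp.1, hcmp.2]
    have e5 : A' / G.h * |z.im| - C * p ≤ (A' * |z.im| - C * p) / G.h := by
      rw [sub_div, div_mul_eq_mul_div]
      have : C * p / G.h ≤ C * p := div_le_self (by positivity) hh
      linarith
    refine e5.trans ?_
    rw [div_le_iff₀ hh0]
    linarith
  · have e1 : G.h * Real.log ‖F z‖ ≤ C * (|z.im| + p) := by
      have e2 : S * |y| ≤ S * (|z.im| + R) := mul_le_mul_of_nonneg_left hy1 hS0
      have e3 : S * R ≤ S * R * p := le_mul_of_one_le_right (by positivity) hp1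
      have e4 : C * (|z.im| + p) = C * |z.im| + (S * p + S * R * p + b * (B * ((1 + R) * p)) + |Cc| * p + A' * R * p) := by rw [hC]; ring
      have e5 : S * |z.im| ≤ C * |z.im| := by
        apply mul_le_mul_of_nonneg_right _ hz0
        have : 0 ≤ S * R := by positivity
        have : 0 ≤ A' * R := by positivity
        have := abs_nonneg Cc
        rw [hC]
        nlinarith
      rw [e4]
      have e6 : 0 ≤ S * p := by positivity
      have e7 : 0 ≤ A' * R * p := by positivity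
      linarith [hcmp.1, hcmp.2]
    have e8 : 0 ≤ C * (|z.im| + p) := by positivity
    by_contra hcon
    push Not at hcon
    have e9 : C * (|z.im| + p) < G.h * Real.log ‖F z‖ := by nlinarith
    linarith

end Pool.Agent.SR3.G
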