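import Mathlib

/-!
# SDR2, block G: the classical half-plane uniqueness theorem

`eq_zero_of_halfplane`: an entire function `D` with `|D(x)| <= exp(C - c x / log(2 + x))` on the
positive real axis and `|D(z)| <= exp(b Im z + C (2 + |z|)^ga)`, `0 < ga < 1`, in the upper half
plane is zero.  (helper59)
-/

open Complex Filter Topology Set Asymptotics Bornology

namespace Pool.Agent.SR3.G
namespace HPU

/-- The shifted variable. -/
noncomputable def sh (ζ : ℂ) : ℂ := ζ + 16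

/-- `Log (ζ + 16) - i π / 2`. -/
noncomputable def Lp (ζ : ℂ) : ℂ := Complex.log (sh ζ) - ((Real.pi / 2 : ℝ) : ℂ) * I

/-- The multiplier's exponent. -/
noncomputable def W (ζ : ℂ) : ℂ := -(sh ζ * Complex.log (Lp ζ))

lemma sh_re {ζ : ℂ} (h : 0 ≤ ζ.re) : 16 ≤ (sh ζ).re := by
  simp [sh]; exact h

lemma sh_im (ζ : ℂ) : (sh ζ).im = ζ.im := by simp [sh]

lemma norm_sh {ζ : ℂ} (h : 0 ≤ ζ.re) : 16 ≤ ‖sh ζ‖ :=
  le_trans (sh_re h) (Complex.re_le_norm _)

lemma norm_sh_le (ζ : ℂ) : ‖sh ζ‖ ≤ ‖ζ‖ + 16 := by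
  unfold sh
  refine (norm_add_le _ _).trans ?_
  have : ‖(16 : ℂ)‖ = 16 := by norm_num
  rw [this]

lemma log_sh {ζ : ℂ} (h : 0 ≤ ζ.re) : 1 < Real.log ‖sh ζ‖ := by
  rw [Real.lt_log_iff_exp_lt (by linarith [norm_sh h])]
  have := Real.exp_one_lt_d9
  linarith [norm_sh h]

lemma Lp_re (ζ : ℂ) : (Lp ζ).re = Real.log ‖sh ζ‖ := by
  simp [Lp, Complex.log_re]

lemma Lp_im (ζ : ℂ) : (Lp ζ).im = arg (sh ζ) - Real.pi / 2 := by
  simp [Lp, Complex.log_im]

lemma arg_sh {ζ : ℂ} (h : 0 ≤ ζ.re) : |arg (sh ζ)| < Real.pi / 2 := by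
  rw [Complex.abs_arg_lt_pi_div_two_iff]
  left; linarith [sh_re h]

lemma Lp_im_neg {ζ : ℂ} (h : 0 ≤ ζ.re) : (Lp ζ).im < 0 := by
  rw [Lp_im]; have := (abs_lt.1 (arg_sh h)).2; linarith

lemma Lp_im_gt {ζ : ℂ} (h : 0 ≤ ζ.re) : -Real.pi < (Lp ζ).im := by
  rw [Lp_im]; have := (abs_lt.1 (arg_sh h)).1; linarith

lemma norm_Lp {ζ : ℂ} (h : 0 ≤ ζ.re) : Real.log ‖sh ζ‖ ≤ ‖Lp ζ‖ := by
  rw [← Lp_re]; exact Complex.re_le_norm _

lemma one_lt_norm_Lp {ζ : ℂ} (h : 0 ≤ ζ.re) : 1 < ‖Lp ζ‖ := lt_of_lt_of_le (log_sh h) (norm_Lp h)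

lemma arg_Lp_nonpos {ζ : ℂ} (h : 0 ≤ ζ.re) : arg (Lp ζ) ≤ 0 := by
  have := Complex.arg_neg_iff.2 (Lp_im_neg h)
  exact this.le

lemma arg_Lp_gt {ζ : ℂ} (h : 0 ≤ ζ.re) : |arg (Lp ζ)| < Real.pi / 2 := by
  rw [Complex.abs_arg_lt_pi_div_two_iff]
  left; rw [Lp_re]; linarith [log_sh h]

lemma neg_arg_Lp_le {ζ : ℂ} (h : 0 ≤ ζ.re) : -arg (Lp ζ) ≤ Real.pi / Real.log ‖sh ζ‖ := by
  have h1 : 0 ≤ -arg (Lp ζ) := by linarith [arg_Lp_nonpos h]
  have h2 : -arg (Lp ζ) < Real.pi / 2 := by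
    have := (abs_lt.1 (arg_Lp_gt h)).1; linarith
  have h3 := Real.le_tan h1 h2
  rw [Real.tan_neg, Complex.tan_arg, Lp_re] at h3
  refine h3.trans ?_
  rw [← neg_div]
  have := log_sh h
  gcongr
  linarith [Lp_im_gt h]

lemma W_re (ζ : ℂ) : (W ζ).re = -((sh ζ).re * Real.log ‖Lp ζ‖) + (sh ζ).im * arg (Lp ζ) := by
  simp [W, Complex.log_re, Complex.log_im]
  ring

lemma W_re_real {t : ℝ} (ht : 0 ≤ t) : (W (t : ℂ)).re ≤ -(t * Real.log (Real.log (t + 16))) := by
  have h0 : 0 ≤ ((t : ℂ)).re := by simpa using ht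
  rw [W_re, sh_im]
  have e1 : (sh (t : ℂ)).re = t + 16 := by simp [sh]
  have e2 : ‖sh (t : ℂ)‖ = t + 16 := by
    have : sh (t : ℂ) = ((t + 16 : ℝ) : ℂ) := by simp [sh]
    rw [this, Complex.norm_real, Real.norm_eq_abs, abs_of_nonneg (by linarith)]
  have h1 := norm_Lp h0
  have h2 := log_sh h0
  rw [e2] at h1 h2
  have h3 : Real.log (Real.log (t + 16)) ≤ Real.log ‖Lp (t : ℂ)‖ := Real.log_le_log (by linarith) h1
  have h4 : 0 ≤ Real.log (Real.log (t + 16)) := Real.log_nonneg h2.le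
  rw [e1]
  simp only [Complex.ofReal_im, zero_mul, add_zero]
  nlinarith

lemma W_re_up {x : ℝ} (hx : 0 ≤ x) : (W ((x : ℂ) * I)).re ≤ 0 := by
  have h0 : 0 ≤ ((x : ℂ) * I).re := by simp
  rw [W_re, sh_im]
  have h1 := arg_Lp_nonpos h0
  have h2 := Real.log_nonneg (one_lt_norm_Lp h0).le
  have h3 := sh_re h0
  have e : ((x : ℂ) * I).im = x := by simp
  rw [e]
  nlinarith [mul_nonneg (show (0:ℝ) ≤ (sh ((x : ℂ) * I)).re by linarith) h2,
    mul_nonneg hx (show 0 ≤ -arg (Lp ((x : ℂ) * I)) by linarith)]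

lemma log_two_add_le {x : ℝ} (hx : 0 ≤ x) :
    Real.log (2 + x) ≤ 2 * Real.log ‖sh (-(x : ℂ) * I)‖ := by
  have e : ‖sh (-(x : ℂ) * I)‖ ^ 2 = 256 + x ^ 2 := by
    rw [Complex.sq_norm, Complex.normSq_apply]
    simp [sh]; ring
  have h0 : 0 ≤ (-(x : ℂ) * I).re := by simp
  have h1 := norm_sh h0
  have : 2 * Real.log ‖sh (-(x : ℂ) * I)‖ = Real.log (‖sh (-(x : ℂ) * I)‖ ^ 2) := by
    rw [Real.log_pow]; norm_num
  rw [this, e]
  apply Real.log_le_log (by linarith)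
  nlinarith [sq_nonneg (x - 1)]

lemma W_re_down {x : ℝ} (hx : 0 ≤ x) :
    (W (-(x : ℂ) * I)).re ≤ 2 * Real.pi * (x / Real.log (2 + x)) := by
  have h0 : 0 ≤ (-(x : ℂ) * I).re := by simp
  rw [W_re, sh_im]
  have h1 := neg_arg_Lp_le h0
  have h2 := Real.log_nonneg (one_lt_norm_Lp h0).le
  have h3 := sh_re h0
  have h4 := log_two_add_le hx
  have h5 := log_sh h0
  have e : (-(x : ℂ) * I).im = -x := by simp
  rw [e]
  have h6 : 0 < Real.log (2 + x) := Real.log_pos (by linarith)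
  have h7 : Real.pi / Real.log ‖sh (-(x : ℂ) * I)‖ ≤ 2 * Real.pi / Real.log (2 + x) := by
    rw [div_le_div_iff₀ (by linarith) h6]
    nlinarith [Real.pi_pos]
  have h8 : x * (-arg (Lp (-(x : ℂ) * I))) ≤ x * (2 * Real.pi / Real.log (2 + x)) :=
    mul_le_mul_of_nonneg_left (h1.trans h7) hx
  have h9 : x * (2 * Real.pi / Real.log (2 + x)) = 2 * Real.pi * (x / Real.log (2 + x)) := by
    ring
  nlinarith [mul_nonneg (show (0:ℝ) ≤ (sh (-(x : ℂ) * I)).re by linarith) h2]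

lemma norm_W_le {ζ : ℂ} (h : 0 ≤ ζ.re) (h1 : 1 ≤ ‖ζ‖) : ‖W ζ‖ ≤ 4000 * ‖ζ‖ ^ (3 / 2 : ℝ) := by
  set s := ‖sh ζ‖ with hs
  have hs16 : 16 ≤ s := norm_sh h
  have hs17 : s ≤ 17 * ‖ζ‖ := by linarith [norm_sh_le ζ]
  have hl := log_sh h
  have a1 : ‖Lp ζ‖ ≤ Real.log s + 4 := by
    refine (Complex.norm_le_abs_re_add_abs_im _).trans ?_
    rw [Lp_re, abs_of_pos (by linarith)]
    have : |(Lp ζ).im| ≤ 4 := by
      rw [abs_le]; constructor
      · linarith [Lp_im_gt h, Real.pi_lt_four]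
      · linarith [Lp_im_neg h]
    linarith
  have a2 : Real.log ‖Lp ζ‖ ≤ Real.log s + 4 :=
    (Real.log_le_self (norm_nonneg _)).trans a1
  have a3 : ‖Complex.log (Lp ζ)‖ ≤ Real.log s + 8 := by
    refine (Complex.norm_le_abs_re_add_abs_im _).trans ?_
    rw [Complex.log_re, Complex.log_im, abs_of_nonneg (Real.log_nonneg (one_lt_norm_Lp h).le)]
    have : |arg (Lp ζ)| ≤ 4 := by
      have := arg_Lp_gt h
      linarith [Real.pi_lt_four, Real.pi_pos]
    linarith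
  have a4 : Real.log s ≤ 2 * s ^ (1 / 2 : ℝ) := by
    have := Real.log_le_rpow_div (x := s) (by linarith) (ε := 1 / 2) (by norm_num)
    calc Real.log s ≤ s ^ (1 / 2 : ℝ) / (1 / 2) := this
      _ = 2 * s ^ (1 / 2 : ℝ) := by ring
  have a5 : 1 ≤ s ^ (1 / 2 : ℝ) := Real.one_le_rpow (by linarith) (by norm_num)
  have a6 : ‖W ζ‖ ≤ s * (10 * s ^ (1 / 2 : ℝ)) := by
    rw [W, norm_neg, norm_mul]
    exact mul_le_mul_of_nonneg_left (by linarith) (norm_nonneg _)
  have a7 : s * (10 * s ^ (1 / 2 : ℝ)) = 10 * s ^ (3 / 2 : ℝ) := by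
    have : s ^ (3 / 2 : ℝ) = s * s ^ (1 / 2 : ℝ) := by
      rw [show (3 / 2 : ℝ) = 1 + 1 / 2 by norm_num, Real.rpow_add (by linarith), Real.rpow_one]
    rw [this]; ring
  have a8 : s ^ (3 / 2 : ℝ) ≤ 17 ^ (3 / 2 : ℝ) * ‖ζ‖ ^ (3 / 2 : ℝ) := by
    rw [← Real.mul_rpow (by norm_num) (norm_nonneg _)]
    exact Real.rpow_le_rpow (by linarith) hs17 (by norm_num)
  have a9 : (17 : ℝ) ^ (3 / 2 : ℝ) ≤ 289 := by
    calc (17 : ℝ) ^ (3 / 2 : ℝ) ≤ 17 ^ (2 : ℝ) :=
          Real.rpow_le_rpow_of_exponent_le (by norm_num) (by norm_num)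
      _ = 289 := by norm_num
  have a10 : 0 ≤ ‖ζ‖ ^ (3 / 2 : ℝ) := Real.rpow_nonneg (norm_nonneg _) _
  calc ‖W ζ‖ ≤ 10 * s ^ (3 / 2 : ℝ) := a6.trans a7.le
    _ ≤ 10 * (289 * ‖ζ‖ ^ (3 / 2 : ℝ)) := by
        have := mul_le_mul_of_nonneg_right a9 a10
        linarith
    _ ≤ 4000 * ‖ζ‖ ^ (3 / 2 : ℝ) := by nlinarith

/-- The power `(ζ + 16) ^ ga`. -/
noncomputable def Pw (ga : ℝ) (ζ : ℂ) : ℂ := (sh ζ) ^ (ga : ℂ)

lemma sh_ne {ζ : ℂ} (h : 0 ≤ ζ.re) : sh ζ ≠ 0 := by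
  intro h0; have := norm_sh h; rw [h0, norm_zero] at this; linarith

lemma Pw_re {ga : ℝ} {ζ : ℂ} (h : 0 ≤ ζ.re) :
    (Pw ga ζ).re = ‖sh ζ‖ ^ ga * Real.cos (ga * arg (sh ζ)) := by
  unfold Pw
  rw [Complex.cpow_def_of_ne_zero (sh_ne h), Complex.exp_re]
  have e1 : (Complex.log (sh ζ) * (ga : ℂ)).re = Real.log ‖sh ζ‖ * ga := by
    simp [Complex.log_re]
  have e2 : (Complex.log (sh ζ) * (ga : ℂ)).im = ga * arg (sh ζ) := by
    simp [Complex.log_im]; ring
  rw [e1, e2, Real.rpow_def_of_pos (by linarith [norm_sh h])]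

lemma Pw_re_ge {ga : ℝ} (h0 : 0 < ga) (h1 : ga < 1) {ζ : ℂ} (h : 0 ≤ ζ.re) :
    ‖sh ζ‖ ^ ga * Real.cos (ga * (Real.pi / 2)) ≤ (Pw ga ζ).re := by
  rw [Pw_re h]
  apply mul_le_mul_of_nonneg_left _ (Real.rpow_nonneg (norm_nonneg _) _)
  rw [← Real.cos_abs (ga * arg (sh ζ))]
  apply Real.cos_le_cos_of_nonneg_of_le_pi (abs_nonneg _)
  · nlinarith [Real.pi_pos]
  · rw [abs_mul, abs_of_pos h0]
    exact mul_le_mul_of_nonneg_left (arg_sh h).le h0.le

lemma cos_pos {ga : ℝ} (h0 : 0 < ga) (h1 : ga < 1) : 0 < Real.cos (ga * (Real.pi / 2)) := by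
  apply Real.cos_pos_of_mem_Ioo
  constructor <;> nlinarith [Real.pi_pos]

lemma Pw_re_nonneg {ga : ℝ} (h0 : 0 < ga) (h1 : ga < 1) {ζ : ℂ} (h : 0 ≤ ζ.re) :
    0 ≤ (Pw ga ζ).re :=
  le_trans (mul_nonneg (Real.rpow_nonneg (norm_nonneg _) _) (cos_pos h0 h1).le) (Pw_re_ge h0 h1 h)

lemma differentiableAt_sh (ζ : ℂ) : DifferentiableAt ℂ sh ζ := by
  unfold sh; fun_prop

lemma differentiableAt_Lp {ζ : ℂ} (h : 0 ≤ ζ.re) : DifferentiableAt ℂ Lp ζ := by
  unfold Lp
  apply DifferentiableAt.sub_const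
  apply DifferentiableAt.clog (differentiableAt_sh ζ)
  left; linarith [sh_re h]

lemma differentiableAt_W {ζ : ℂ} (h : 0 ≤ ζ.re) : DifferentiableAt ℂ W ζ := by
  unfold W
  apply DifferentiableAt.neg
  apply (differentiableAt_sh ζ).mul
  apply DifferentiableAt.clog (differentiableAt_Lp h)
  left; rw [Lp_re]; linarith [log_sh h]

lemma differentiableAt_Pw {ga : ℝ} {ζ : ℂ} (h : 0 ≤ ζ.re) : DifferentiableAt ℂ (Pw ga) ζ := by
  unfold Pw
  apply DifferentiableAt.cpow (differentiableAt_sh ζ) (differentiableAt_const _)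
  left; linarith [sh_re h]

/-- The main statement. -/
theorem main {D : ℂ → ℂ} (hD : Differentiable ℂ D) {b c C ga : ℝ} (hc : 0 < c) (h0 : 0 < ga)
    (h1 : ga < 1) (hC : 0 ≤ C) (hb : 0 ≤ b)
    (hx : ∀ x : ℝ, 0 ≤ x → ‖D x‖ ≤ Real.exp (C - c * (x / Real.log (2 + x))))
    (hy : ∀ z : ℂ, 0 ≤ z.im → ‖D z‖ ≤ Real.exp (b * z.im + C * (2 + ‖z‖) ^ ga)) : D = 0 := by
  set κ : ℝ := c / (2 * Real.pi) with hκ
  have hκ0 : 0 < κ := div_pos hc (by linarith [Real.pi_pos])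
  set K : ℝ := 2 * C / Real.cos (ga * (Real.pi / 2)) with hK
  have hK0 : 0 ≤ K := div_nonneg (by linarith) (cos_pos h0 h1).le
  set f : ℂ → ℂ := fun ζ => D (I * ζ) * Complex.exp ((κ : ℂ) * W ζ - (K : ℂ) * Pw ga ζ) with hf
  have hnorm : ∀ ζ : ℂ, ‖f ζ‖ = ‖D (I * ζ)‖ * Real.exp (κ * (W ζ).re - K * (Pw ga ζ).re) := by
    intro ζ
    simp only [hf, norm_mul, Complex.norm_exp]
    congr 2
    simp
  have him : ∀ ζ : ℂ, (I * ζ).im = ζ.re := by intro ζ; simp
  have hnI : ∀ ζ : ℂ, ‖I * ζ‖ = ‖ζ‖ := by intro ζ; simp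
  have key : EqOn f 0 {z : ℂ | 0 ≤ z.re} := by
    apply PhragmenLindelof.eq_zero_on_right_half_plane_of_superexponential_decay
    · apply DifferentiableOn.diffContOnCl
      rw [closure_setOfPred_lt_re]
      intro ζ hζ
      apply DifferentiableAt.differentiableWithinAt
      have hζ' : 0 ≤ ζ.re := hζ
      simp only [hf]
      apply DifferentiableAt.mul
      · exact (hD _).comp ζ (by fun_prop)
      · apply DifferentiableAt.cexp
        apply DifferentiableAt.sub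
        · exact (differentiableAt_W hζ').const_mul _
        · exact (differentiableAt_Pw hζ').const_mul _
    · refine ⟨3 / 2, by norm_num, b + 3 * C + κ * 4000, ?_⟩
      apply Asymptotics.IsBigO.of_bound 1
      have e1 : ∀ᶠ ζ in cobounded ℂ ⊓ 𝓟 {z : ℂ | 0 < z.re}, 1 ≤ ‖ζ‖ ∧ 0 < ζ.re := by
        rw [eventually_inf_principal]
        filter_upwards [Bornology.eventually_ne_cobounded (0 : ℂ),
          (tendsto_norm_cobounded_atTop (E := ℂ)).eventually_ge_atTop 1] with ζ _ h2 h3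
        exact ⟨h2, h3⟩
      filter_upwards [e1] with ζ hζ
      obtain ⟨hz1, hz2⟩ := hζ
      rw [hnorm, one_mul, Real.norm_eq_abs, abs_of_pos (Real.exp_pos _)]
      have g1 := hy (I * ζ) (by rw [him]; exact hz2.le)
      rw [him, hnI] at g1
      have g2 : κ * (W ζ).re - K * (Pw ga ζ).re ≤ κ * (4000 * ‖ζ‖ ^ (3 / 2 : ℝ)) := by
        have := Pw_re_nonneg h0 h1 hz2.le
        have t := (Complex.re_le_norm (W ζ)).trans (norm_W_le hz2.le hz1)
        have := mul_le_mul_of_nonneg_left t hκ0.le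
        nlinarith
      have g3 : ‖ζ‖ ≤ ‖ζ‖ ^ (3 / 2 : ℝ) := by
        calc ‖ζ‖ = ‖ζ‖ ^ (1 : ℝ) := (Real.rpow_one _).symm
          _ ≤ ‖ζ‖ ^ (3 / 2 : ℝ) := Real.rpow_le_rpow_of_exponent_le hz1 (by norm_num)
      have g4 : (2 + ‖ζ‖) ^ ga ≤ 3 * ‖ζ‖ ^ (3 / 2 : ℝ) := by
        calc (2 + ‖ζ‖) ^ ga ≤ (2 + ‖ζ‖) ^ (1 : ℝ) :=
              Real.rpow_le_rpow_of_exponent_le (by linarith) h1.le
          _ = 2 + ‖ζ‖ := Real.rpow_one _
          _ ≤ 3 * ‖ζ‖ := by linarith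
          _ ≤ _ := by linarith
      have g5 : ζ.re ≤ ‖ζ‖ ^ (3 / 2 : ℝ) := (Complex.re_le_norm ζ).trans g3
      refine (mul_le_mul_of_nonneg_right g1 (Real.exp_pos _).le).trans ?_
      rw [← Real.exp_add]
      apply Real.exp_le_exp.2
      have g6 := mul_le_mul_of_nonneg_left g4 hC
      have g7 := mul_le_mul_of_nonneg_left g5 hb
      nlinarith
    · intro n
      have hlim : Tendsto (fun x : ℝ => Real.exp (-x + 2 * C)) atTop (𝓝 0) := by
        apply Real.tendsto_exp_atBot.comp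
        apply Filter.tendsto_atBot_add_const_right
        exact tendsto_neg_atTop_atBot
      have hll : Tendsto (fun x : ℝ => Real.log (Real.log (x + 16))) atTop atTop :=
        Real.tendsto_log_atTop.comp (Real.tendsto_log_atTop.comp
          (tendsto_atTop_add_const_right _ _ tendsto_id))
      apply squeeze_zero' (g := fun x : ℝ => Real.exp (-x + 2 * C)) _ _ hlim
      · filter_upwards with x
        positivity
      · filter_upwards [eventually_ge_atTop 0,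
          hll.eventually_ge_atTop ((n + b + C + 1) / κ)] with x hx0 hxl
        have g0 : (0 : ℝ) ≤ ((x : ℂ)).re := by simpa using hx0
        rw [hnorm]
        have g1 := hy (I * (x : ℂ)) (by rw [him]; exact g0)
        rw [him, hnI] at g1
        have gx : ‖(x : ℂ)‖ = x := by rw [Complex.norm_real, Real.norm_eq_abs, abs_of_nonneg hx0]
        rw [gx, Complex.ofReal_re] at g1
        have g4 : (2 + x) ^ ga ≤ 2 + x := by
          calc (2 + x) ^ ga ≤ (2 + x) ^ (1 : ℝ) :=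
                Real.rpow_le_rpow_of_exponent_le (by linarith) h1.le
            _ = 2 + x := Real.rpow_one _
        have g2 := W_re_real hx0
        have g3 := Pw_re_nonneg h0 h1 g0
        have g5 : n + b + C + 1 ≤ κ * Real.log (Real.log (x + 16)) := by
          rw [div_le_iff₀ hκ0] at hxl
          linarith
        have g6 := mul_le_mul_of_nonneg_left g2 hκ0.le
        have g7 := mul_le_mul_of_nonneg_left g5 hx0
        have g8 := mul_le_mul_of_nonneg_left g4 hC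
        have g9 := mul_nonneg hK0 g3
        calc Real.exp x ^ n * (‖D (I * (x : ℂ))‖ * Real.exp (κ * (W x).re - K * (Pw ga x).re))
            ≤ Real.exp x ^ n * (Real.exp (b * x + C * (2 + x) ^ ga) *
                Real.exp (κ * (W x).re - K * (Pw ga x).re)) := by
              gcongr
          _ = Real.exp (n * x + ((b * x + C * (2 + x) ^ ga) +
                (κ * (W x).re - K * (Pw ga x).re))) := by
              rw [← Real.exp_nat_mul, ← Real.exp_add, ← Real.exp_add]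
          _ ≤ Real.exp (-x + 2 * C) := by
              apply Real.exp_le_exp.2
              nlinarith
    · refine ⟨Real.exp C, ?_⟩
      intro x
      have g0 : (0 : ℝ) ≤ ((x : ℂ) * I).re := by simp
      rw [hnorm]
      have eI : I * ((x : ℂ) * I) = ((-x : ℝ) : ℂ) := by
        push_cast
        linear_combination (x : ℂ) * Complex.I_mul_I
      rw [eI]
      rcases le_total 0 x with hx0 | hx0
      · have g1 := hy ((-x : ℝ) : ℂ) (by simp)
        have g2 : ‖((-x : ℝ) : ℂ)‖ = x := by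
          rw [Complex.norm_real, Real.norm_eq_abs, abs_neg, abs_of_nonneg hx0]
        rw [g2, Complex.ofReal_im, mul_zero, zero_add] at g1
        have g3 := W_re_up hx0
        have g4 := Pw_re_ge h0 h1 g0
        have g5 : K * (‖sh ((x : ℂ) * I)‖ ^ ga * Real.cos (ga * (Real.pi / 2)))
            = 2 * C * ‖sh ((x : ℂ) * I)‖ ^ ga := by
          have h5 := (cos_pos h0 h1).ne'
          have h6 : K * Real.cos (ga * (Real.pi / 2)) = 2 * C := by
            rw [hK, div_mul_cancel₀ _ h5]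
          calc K * (‖sh ((x : ℂ) * I)‖ ^ ga * Real.cos (ga * (Real.pi / 2)))
              = (K * Real.cos (ga * (Real.pi / 2))) * ‖sh ((x : ℂ) * I)‖ ^ ga := by ring
            _ = _ := by rw [h6]
        have g6 : (2 + x) ^ ga ≤ 2 * ‖sh ((x : ℂ) * I)‖ ^ ga := by
          have n1 := norm_sh g0
          have n2 : x ≤ ‖sh ((x : ℂ) * I)‖ := by
            have := Complex.abs_im_le_norm (sh ((x : ℂ) * I))
            rw [sh_im] at this
            simp at this
            rw [abs_of_nonneg hx0] at this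
            exact this
          calc (2 + x) ^ ga ≤ (2 * ‖sh ((x : ℂ) * I)‖) ^ ga :=
                Real.rpow_le_rpow (by linarith) (by linarith) h0.le
            _ = 2 ^ ga * ‖sh ((x : ℂ) * I)‖ ^ ga :=
                Real.mul_rpow (by norm_num) (norm_nonneg _)
            _ ≤ 2 * ‖sh ((x : ℂ) * I)‖ ^ ga := by
                apply mul_le_mul_of_nonneg_right _ (Real.rpow_nonneg (norm_nonneg _) _)
                calc (2 : ℝ) ^ ga ≤ 2 ^ (1 : ℝ) :=
                      Real.rpow_le_rpow_of_exponent_le (by norm_num) h1.le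
                  _ = 2 := Real.rpow_one _
        have g7 := mul_le_mul_of_nonneg_left g4 hK0
        rw [g5] at g7
        have g8 := mul_le_mul_of_nonneg_left g6 hC
        refine (mul_le_mul_of_nonneg_right g1 (Real.exp_pos _).le).trans ?_
        rw [← Real.exp_add]
        apply Real.exp_le_exp.2
        nlinarith
      · obtain ⟨y, rfl⟩ : ∃ y : ℝ, x = -y := ⟨-x, by ring⟩
        have hy0 : 0 ≤ y := by linarith
        rw [neg_neg]
        have e2 : (((-y : ℝ) : ℂ) * I) = -(y : ℂ) * I := by push_cast; ring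
        have g1 := hx y hy0
        have g3 := W_re_down hy0
        have g4 := Pw_re_nonneg h0 h1 g0
        rw [e2] at g4 ⊢
        refine (mul_le_mul_of_nonneg_right g1 (Real.exp_pos _).le).trans ?_
        rw [← Real.exp_add]
        apply Real.exp_le_exp.2
        have g6 := mul_le_mul_of_nonneg_left g3 hκ0.le
        have g7 : κ * (2 * Real.pi * (y / Real.log (2 + y))) = c * (y / Real.log (2 + y)) := by
          rw [hκ]
          have := Real.pi_pos.ne'
          field_simp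
        nlinarith [mul_nonneg hK0 g4]
  -- D is zero on the upper half plane, so zero
  have hz : ∀ z : ℂ, 0 ≤ z.im → D z = 0 := by
    intro z hz
    have e : z = I * (-I * z) := by
      linear_combination z * Complex.I_mul_I
    have h2 : 0 ≤ (-I * z).re := by simpa using hz
    have := key h2
    simp only [hf, Pi.zero_apply, mul_eq_zero, Complex.exp_ne_zero, or_false] at this
    rw [e]; exact this
  have han : AnalyticOnNhd ℂ D univ := fun z _ => hD.analyticAt z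
  have : D = fun _ => 0 := by
    apply han.eq_of_eventuallyEq (z₀ := I) (fun z _ => analyticAt_const)
    have : {z : ℂ | 0 < z.im} ∈ 𝓝 I :=
      (isOpen_lt continuous_const Complex.continuous_im).mem_nhds (by simp)
    filter_upwards [this] with z hz'
    exact hz z (le_of_lt hz')
  rw [this]; rfl

end HPU

/-- Half-plane uniqueness. -/
theorem eq_zero_of_halfplane {D : ℂ → ℂ} (hD : Differentiable ℂ D) {b c C ga : ℝ} (hc : 0 < c)
    (h0 : 0 < ga) (h1 : ga < 1)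
    (hx : ∀ x : ℝ, 0 ≤ x → ‖D x‖ ≤ Real.exp (C - c * (x / Real.log (2 + x))))
    (hy : ∀ z : ℂ, 0 ≤ z.im → ‖D z‖ ≤ Real.exp (b * z.im + C * (2 + ‖z‖) ^ ga)) : D = 0 := by
  apply HPU.main hD hc h0 h1 (abs_nonneg C) (abs_nonneg b)
  · intro x hx0
    refine (hx x hx0).trans (Real.exp_le_exp.2 ?_)
    linarith [le_abs_self C]
  · intro z hz
    refine (hy z hz).trans (Real.exp_le_exp.2 ?_)
    have : 0 ≤ (2 + ‖z‖) ^ ga := Real.rpow_nonneg (by linarith [norm_nonneg z]) _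
    nlinarith [mul_le_mul_of_nonneg_right (le_abs_self b) hz,
      mul_le_mul_of_nonneg_right (le_abs_self C) this]

/-- The mirror image (decay on the negative axis). -/
theorem eq_zero_of_halfplane_neg {D : ℂ → ℂ} (hD : Differentiable ℂ D) {b c C ga : ℝ}
    (hc : 0 < c) (h0 : 0 < ga) (h1 : ga < 1)
    (hx : ∀ x : ℝ, 0 ≤ x → ‖D (-x : ℝ)‖ ≤ Real.exp (C - c * (x / Real.log (2 + x))))
    (hy : ∀ z : ℂ, z.im ≤ 0 → ‖D z‖ ≤ Real.exp (b * (-z.im) + C * (2 + ‖z‖) ^ ga)) : D = 0 := by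
  have h : (fun z => D (-z)) = 0 := by
    apply eq_zero_of_halfplane (D := fun z => D (-z)) (b := b) (c := c) (C := C) (ga := ga)
      (hD.comp differentiable_neg) hc h0 h1
    · intro x hx0
      have := hx x hx0
      simpa using this
    · intro z hz
      have := hy (-z) (by simpa using hz)
      simpa using this
  funext z
  have := congrFun h (-z)
  simpa using this

end Pool.Agent.SR3.G
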