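import Pool.Agent.SR3.G.Defs

/-!
# SR3 G Neg: the mirror image
-/

set_option autoImplicit false
set_option linter.unusedSectionVars false

open Topology Filter Metric

noncomputable section

namespace Pool.Agent.SR3.G

variable {V : Type} [NormedAddCommGroup V] [NormedSpace ℂ V] {KK : Set (ℂ → V)} {M γ L r b₀ c₁ C₂ ε₀ : ℝ}

theorem ng_inv (F : ℂ → V) : ng (ng F) = F := by
  funext z
  simp [ng]

theorem ng_image (KK : Set (ℂ → V)) : ng '' (ng '' KK) = KK := by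
  rw [Set.image_image]
  simp only [ng_inv, Set.image_id']

theorem ng_mem {F : ℂ → V} (h : F ∈ KK) : ng F ∈ ng '' KK := Set.mem_image_of_mem _ h

theorem ng_mem' {F : ℂ → V} (h : F ∈ ng '' KK) : ng F ∈ KK := by
  have h1 := ng_mem h
  rwa [ng_image] at h1

theorem tlu_neg {l : Filter ℕ} {F : ℕ → ℂ → V} {F₀ : ℂ → V} (hF : TendstoLocallyUniformlyOn F F₀ l Set.univ) :
    TendstoLocallyUniformlyOn (fun n => ng (F n)) (ng F₀) l Set.univ := by
  have h1 := hF.comp (fun z : ℂ => -z) (Set.mapsTo_univ _ Set.univ) continuous_neg.continuousOn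
  exact h1

theorem deriv_ng (F : ℂ → V) (z : ℂ) : deriv (ng F) z = -deriv F (-z) := deriv_comp_neg F z

theorem Sys.neg (h : Sys KK M γ) : Sys (ng '' KK) M γ := by
  refine ⟨h.γ_pos, h.γ_lt, ?_, ?_, ?_, ?_, ?_, ?_, ?_, ?_⟩
  · obtain ⟨F, hF, h0⟩ := h.nonempty
    exact ⟨ng F, ng_mem hF, by simpa [ng] using h0⟩
  · rintro _ ⟨F, hF, rfl⟩
    exact (h.diff F hF).comp differentiable_neg
  · rintro _ ⟨F, hF, rfl⟩ z
    rw [deriv_ng]
    exact neg_ne_zero.2 (h.imm F hF _)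
  · rintro _ ⟨F, hF, rfl⟩ a
    refine ⟨sh (-a) F, h.shift F hF _, ?_⟩
    funext z
    show F (-z + -a) = F (-(z + a))
    rw [neg_add]
  · intro 𝒰 h𝒰 B F hF hB
    obtain ⟨H, hH, hlim⟩ := h.cpt 𝒰 h𝒰 B (fun k => ng (F k)) (fun k => ng_mem' (hF k)) fun k => by simpa [ng] using hB k
    refine ⟨ng H, ng_mem hH, ?_⟩
    have h1 := tlu_neg hlim
    simp only [ng_inv] at h1
    exact h1
  · intro B
    obtain ⟨C, hC⟩ := h.grow B
    refine ⟨C, ?_⟩
    rintro _ ⟨F, hF, rfl⟩ h0 z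
    have h1 := hC F hF (by simpa [ng] using h0) (-z)
    simpa [ng] using h1
  · intro B
    obtain ⟨C, hC⟩ := h.thin B
    refine ⟨C, ?_⟩
    rintro _ ⟨F, hF, rfl⟩ h0 z hz
    have h1 := hC F hF (by simpa [ng] using h0) (-z) hz
    simpa using h1
  · obtain ⟨l, hl⟩ := h.dense
    refine ⟨l, ?_⟩
    rintro _ ⟨F, hF, rfl⟩ h0 x
    obtain ⟨z, h1, h2⟩ := hl F hF (by simpa [ng] using h0) (-x)
    refine ⟨-z, ?_, by simpa [ng] using h2⟩
    rw [Complex.neg_re, ← abs_neg]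
    have h3 : -(-z.re - x) = z.re - -x := by ring
    rw [h3]
    exact h1

theorem IsChain.neg {F : ℂ → V} {z : ℤ → ℂ} (h : IsChain M L F z) : IsChain M L (ng F) fun k => -z (-k) := by
  refine ⟨by simp [h.zero], fun k => by simpa [ng] using h.good (-k), fun k => ?_, fun k => ?_⟩
  · have h1 := h.re (-(k + 1))
    have h2 : -(k + 1) + 1 = -k := by ring
    rw [h2] at h1
    simp only [Complex.neg_re]
    linarith
  · have h1 := h.norm (-(k + 1))
    have h2 : -(k + 1) + 1 = -k := by ring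
    rw [h2] at h1
    have h3 : -z (-(k + 1)) - -z (-k) = z (-k) - z (-(k + 1)) := by ring
    rw [h3]
    exact h1

theorem Cst.neg (hc : Cst KK M L r b₀ c₁ C₂) : Cst (ng '' KK) M L r b₀ c₁ C₂ := by
  refine ⟨hc.L1, hc.rL, hc.b₀_pos, hc.b₀_le, hc.c₁_pos, hc.c₁_le, hc.C₂_ge, ?_, ?_, ?_⟩
  · rintro _ ⟨F, hF, rfl⟩ h0
    obtain ⟨z, hz⟩ := hc.chain F hF (by simpa [ng] using h0)
    exact ⟨_, hz.neg⟩
  · rintro _ ⟨F, hF, rfl⟩ h0 w b hw hb
    have h1 := hc.lip F hF (by simpa [ng] using h0) (-w) (-b) (by simpa using hw) (by simpa using hb)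
    show ‖F (-(w + b)) - F (-w)‖ ≤ _
    rw [neg_add]
    simpa using h1
  · rintro _ ⟨F, hF, rfl⟩ h0 b hb
    obtain ⟨w, hw, h1⟩ := hc.inj F hF (by simpa [ng] using h0) (-b) (by simpa using hb)
    refine ⟨-w, by simpa using hw, ?_⟩
    show _ ≤ ‖F (-(-w + b)) - F (-(-w))‖
    rw [neg_add, neg_neg]
    simpa using h1

theorem Rigid.neg (hr : Rigid KK M L r γ) : Rigid (ng '' KK) M L r γ := by
  intro 𝒰 h𝒰 F H z s ε N A hF hH hz hs hs0 hε hN hεN hb
  obtain ⟨F₀, hF₀, c, h1, h2⟩ := hr 𝒰 h𝒰 (fun n => ng (F n)) (fun n => ng (H n)) (fun n k => -z n (-k)) s ε N A (fun n => ng_mem' (hF n))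
    (fun n => ng_mem' (hH n)) (fun n => (hz n).neg) hs hs0 hε hN hεN fun n k w hw => by
      have h3 := hb n (-k) (-w) (by simpa using hw)
      simp only [ng, neg_add, neg_neg]
      simpa using h3
  refine ⟨ng F₀, ng_mem hF₀, -c, ?_, ?_⟩
  · have h3 := tlu_neg h1
    simp only [ng_inv] at h3
    exact h3
  · have h3 := tlu_neg h2
    refine h3.congr_right ?_ |>.congr ?_
    · intro z _
      show c • deriv F₀ (-z) = -c • deriv (ng F₀) z
      rw [deriv_ng]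
      simp
    · intro n z _
      show ((s n : ℂ)⁻¹) • (H n (- -z) - F n (- -z)) = _
      rw [neg_neg]

theorem NoPer.neg (h : NoPer KK) : NoPer (ng '' KK) := by
  rintro _ ⟨F, hF, rfl⟩ ω hω
  have h1 := h F hF (-ω) fun z => by
    have h2 := hω (-z)
    simpa [ng, neg_add, add_comm] using h2
  simpa using h1

theorem dQ_ng (F H : ℂ → V) : dQ r (ng F) (ng H) = dQ r F H := by
  unfold dQ
  congr 1
  ext x
  simp only [Set.mem_image, mem_closedBall_zero_iff]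
  constructor
  · rintro ⟨w, hw, rfl⟩
    exact ⟨-w, by simpa using hw, rfl⟩
  · rintro ⟨w, hw, rfl⟩
    exact ⟨-w, by simpa using hw, by simp [ng]⟩

theorem sh_ng (a : ℂ) (F : ℂ → V) : sh (-a) (ng F) = ng (sh a F) := by
  funext z
  show F (-(z + -a)) = F (-z + a)
  congr 1
  ring

theorem dev_neg (F H : ℂ → V) (a b : ℂ) : dev r (ng F) (ng H) (-a) (-b) = dev r F H a b := by
  unfold dev
  rw [← neg_add, sh_ng, sh_ng, dQ_ng]

theorem Track.neg {ε : ℝ} {F H : ℂ → V} {z b : ℤ → ℂ} {I : Set ℤ} (h : Track r b₀ ε F H z b I) :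
    Track r b₀ ε (ng F) (ng H) (fun k => -z (-k)) (fun k => -b (-k)) (Neg.neg ⁻¹' I) := by
  refine ⟨fun k hk => ?_, fun k hk b' hb' => ?_, fun k hk hk1 => ?_⟩
  · simp only [dev_neg]
    exact h.le _ hk
  · have h1 := h.min (-k) hk (-b') (by
      rw [← norm_neg]
      have h3 : -(-b' - b (-k)) = b' - -b (-k) := by ring
      rw [h3]
      exact hb')
    have h2 := dev_neg (r := r) F H (z (-k)) (-b')
    rw [neg_neg] at h2
    simp only [dev_neg]
    rw [h2]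
    exact h1
  · have h2 : -(k + 1) + 1 = -k := by ring
    have h1 := h.near (-(k + 1)) hk1 (by rw [h2]; exact hk)
    rw [h2] at h1
    have h3 : -b (-(k + 1)) - -b (-k) = b (-k) - b (-(k + 1)) := by ring
    rw [h3]
    exact h1

theorem Expa.neg (he : Expa KK M L r b₀ c₁ ε₀) : Expa (ng '' KK) M L r b₀ c₁ ε₀ := by
  refine ⟨he.pos, he.le, ?_⟩
  rintro _ ⟨F, hF, rfl⟩ _ ⟨H, hH, rfl⟩ z b hz ht k
  have h1 := hz.neg
  have h2 := ht.neg
  simp only [ng_inv, Set.preimage_univ] at h1 h2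
  have h3 := he.exp F hF H hH _ _ h1 h2 (-k)
  simp only [neg_neg] at h3
  have h4 := dev_neg (r := r) F H (-z k) (-b k)
  rw [neg_neg, neg_neg] at h4
  rw [h4]
  exact h3

end Pool.Agent.SR3.G
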