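import Pool.Agent.SR3.G.Fol
import Pool.Agent.SR3.G.Rig

/-!
# SR3 G Exp: expansivity

PROOF.  Otherwise there are followed pairs with deviations `≤ ε_n → 0`, not all `0`.  Translate to an index where the deviation is at least half the supremum `s_n` and
rescale by `s_n` (`follow_bound`): this contradicts `rig_false`.
-/

set_option autoImplicit false

open Topology Filter Metric

noncomputable section

namespace Pool.Agent.SR3.G


variable {V : Type} [NormedAddCommGroup V] [NormedSpace ℂ V] [CompleteSpace V] {KK : Set (ℂ → V)} {M γ L r b₀ c₁ C₂ ε₀ : ℝ}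

/-- translation of a followed pair -/
theorem Track.translate {ε : ℝ} {F H : ℂ → V} {z b : ℤ → ℂ} (h : Track r b₀ ε F H z b Set.univ) (n : ℤ) :
    Track r b₀ ε (sh (z n) F) (sh (z n + b n) H) (fun k => z (k + n) - z n) (fun k => b (k + n) - b n) Set.univ := by
  have key : ∀ (k : ℤ) (b' : ℂ), dev r (sh (z n) F) (sh (z n + b n) H) (z (k + n) - z n) b' = dev r F H (z (k + n)) (b' + b n) := by
    intro k b'
    rw [dev_sh', sub_add_cancel]
  refine ⟨fun k _ => ?_, fun k _ b' hb' => ?_, fun k _ _ => ?_⟩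
  · rw [key, sub_add_cancel]
    exact h.le _ trivial
  · rw [key, key, sub_add_cancel]
    refine h.min _ trivial _ ?_
    rw [show b' + b n - b (k + n) = b' - (b (k + n) - b n) by ring]
    exact hb'
  · have := h.near (k + n) trivial trivial
    rw [show b (k + 1 + n) - b n - (b (k + n) - b n) = b (k + n + 1) - b (k + n) by rw [show k + 1 + n = k + n + 1 by ring]; ring]
    exact this

/-- a followed pair which is not exact, normalised at an almost maximal deviation -/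
theorem exp_norm {ε : ℝ} (h : Sys KK M γ) {F H : ℂ → V} (hF : F ∈ KK) (hH : H ∈ KK) {z b : ℤ → ℂ} (hz : IsChain M L F z)
    (ht : Track r b₀ ε F H z b Set.univ) {k : ℤ} (hk : dev r F H (z k) (b k) ≠ 0) :
    ∃ (F' H' : ℂ → V) (z' b' : ℤ → ℂ) (s : ℝ), F' ∈ KK ∧ H' ∈ KK ∧ IsChain M L F' z' ∧ b' 0 = 0 ∧ 0 < s ∧ s ≤ ε ∧ Track r b₀ ε F' H' z' b' Set.univ ∧
      (∀ k, dev r F' H' (z' k) (b' k) ≤ s) ∧ ∀ b'' : ℂ, ‖b''‖ ≤ b₀ → s / 2 ≤ dev r F' H' 0 b'' := by
  have hbdd : BddAbove (Set.range fun k => dev r F H (z k) (b k)) := ⟨ε, by rintro _ ⟨k, rfl⟩; exact ht.le k trivial⟩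
  obtain ⟨s, hs⟩ : ∃ s : ℝ, s = ⨆ k, dev r F H (z k) (b k) := ⟨_, rfl⟩
  have hle : ∀ k, dev r F H (z k) (b k) ≤ s := fun k => by rw [hs]; exact le_ciSup hbdd k
  have hs0 : 0 < s := lt_of_lt_of_le (lt_of_le_of_ne (dQ_nonneg _ _) hk.symm) (hle k)
  have hsε : s ≤ ε := by rw [hs]; exact ciSup_le fun k => ht.le k trivial
  obtain ⟨n, hn⟩ : ∃ n, s / 2 < dev r F H (z n) (b n) := by
    have : s / 2 < ⨆ k, dev r F H (z k) (b k) := by rw [← hs]; exact half_lt_self hs0
    exact exists_lt_of_lt_ciSup this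
  refine ⟨sh (z n) F, sh (z n + b n) H, fun k => z (k + n) - z n, fun k => b (k + n) - b n, s, h.shift _ hF _, h.shift _ hH _, hz.shift n, by simp, hs0, hsε,
    ht.translate n, fun k => ?_, fun b'' hb'' => ?_⟩
  · rw [dev_sh', sub_add_cancel, sub_add_cancel]
    exact hle _
  · have h1 := (ht.translate n).min 0 trivial b'' (by simpa using hb'')
    simp only [zero_add, sub_self] at h1
    refine hn.le.trans (le_trans (le_of_eq ?_) h1)
    rw [dev_sh', zero_add, zero_add]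

/-- **Expansivity.** -/
theorem exists_expa (h : Sys KK M γ) (hc : Cst KK M L r b₀ c₁ C₂) (hr : Rigid KK M L r γ) : ∃ ε₀ : ℝ, Expa KK M L r b₀ c₁ ε₀ := by
  by_contra hcon
  push Not at hcon
  have hcb : 0 < c₁ * b₀ / 4 := by
    have := hc.c₁_pos
    have := hc.b₀_pos
    positivity
  have hcb1 : c₁ * b₀ / 4 ≤ 1 := by
    have h1 := hc.c₁_pos
    have h2 := hc.b₀_pos
    have h3 := hc.c₁_le
    have h4 := hc.b₀_le
    nlinarith
  have hεn : ∀ n : ℕ, 0 < c₁ * b₀ / 4 / (n + 1) ∧ c₁ * b₀ / 4 / (n + 1) ≤ c₁ * b₀ / 4 := by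
    intro n
    refine ⟨by positivity, div_le_self hcb.le ?_⟩
    have : (0 : ℝ) ≤ n := Nat.cast_nonneg n
    linarith
  have hex : ∀ n : ℕ, ∃ (F' H' : ℂ → V) (z' b' : ℤ → ℂ) (s : ℝ), F' ∈ KK ∧ H' ∈ KK ∧ IsChain M L F' z' ∧ b' 0 = 0 ∧ 0 < s ∧ s ≤ c₁ * b₀ / 4 / (n + 1) ∧
      Track r b₀ (c₁ * b₀ / 4 / (n + 1)) F' H' z' b' Set.univ ∧
      (∀ k, dev r F' H' (z' k) (b' k) ≤ s) ∧ ∀ b'' : ℂ, ‖b''‖ ≤ b₀ → s / 2 ≤ dev r F' H' 0 b'' := by
    intro n
    by_contra hno
    refine hcon _ ⟨(hεn n).1, (hεn n).2, fun F hF H hH z b hz ht k => ?_⟩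
    by_contra hk
    exact hno (exp_norm h hF hH hz ht hk)
  choose F H z b s hF hH hz hb hs hsε ht hdev hmin using hex
  obtain ⟨A, hA, hfol⟩ := follow_bound h hc
  have hs0 : Tendsto s atTop (𝓝 0) := by
    refine squeeze_zero (fun n => (hs n).le) hsε ?_
    exact (tendsto_const_div_atTop_nhds_zero_nat (c₁ * b₀ / 4)).comp (tendsto_add_atTop_nat 1) |>.congr fun n => by simp
  refine rig_false h hc hr (hyperfilter ℕ) (Nat.hyperfilter_le_atTop) (s := s) (ε := fun _ => 0) (N := fun _ => 0) (A := A) hF hH hz hs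
    (hs0.mono_left Nat.hyperfilter_le_atTop) (fun _ => le_rfl) (fun _ => le_rfl) (by simp) (fun n k w hw => ?_) hmin
  have h1 := hfol (F n) (hF n) (H n) (hH n) (z n) (b n) Set.univ (s n) (fun _ => 0) (hz n) (hb n) trivial Set.ordConnected_univ (hs n)
    (fun _ _ _ => le_rfl) ⟨fun k hk => ((ht n).le k hk).trans ((hεn n).2.trans hcb1), (ht n).min, (ht n).near⟩
    (fun k _ => by simpa using hdev n k) (fun k hk => absurd trivial hk) k w hw
  simpa using h1

end Pool.Agent.SR3.G
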