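import Pool.Agent.SR3.G.ODefs
import Pool.Agent.SR3.G.MemC
import Pool.Agent.H17.Montel

/-!
# SR3 G RigF: rigidity of the family `KF`

Along `𝒰`: `F n → F₀` in `KF` (`KF_cpt`); `TubeBd` bounds `V n = (H n - F n) / s n` on compacta uniformly, Montel gives `V`; `ε n log (2 + N n) → 0` kills
the second exponent; `(E i (H n) - E i (F n)) / s n → DE i (F₀) (V)`; `RigidF` with `γ'`.
-/

set_option autoImplicit false

open Topology Filter Metric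

noncomputable section

namespace Pool.Agent.SR3.G

open Pool.Agent.H36.BP (EN)
open Pool.Agent.SR3 (Geo)
open Pool.Agent.SR3.Geo (Gd)

variable {N : ℕ} {G : Geo N} {T : Set (EN N)} {rho : EN N → ℝ} {δ γ A' B : ℝ} {β β' : G.ι → ℝ} {q : G.J → ℂ} {F : ℂ → EN N} {𝒬 : Set (EN N → ℂ)}

/-- Montel on the plane, along an ultrafilter -/
private theorem rig_montel (𝒰 : Ultrafilter ℕ) {Φ : ℕ → ℂ → EN N} (hd : ∀ k, Differentiable ℂ (Φ k)) {b : ℝ → ℝ}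
    (hb : ∀ R : ℝ, ∀ᶠ k in (𝒰 : Filter ℕ), ∀ z ∈ ball (0 : ℂ) R, ‖Φ k z‖ ≤ b R) :
    ∃ H : ℂ → EN N, TendstoLocallyUniformlyOn Φ H (𝒰 : Filter ℕ) Set.univ := by
  have hmont : ∀ R : ℕ, ∃ h : ℂ → EN N, DifferentiableOn ℂ h (ball 0 (R + 1)) ∧
      TendstoLocallyUniformlyOn Φ h (𝒰 : Filter ℕ) (ball 0 (R + 1)) := fun R =>
    Pool.Agent.H17.montel_ultrafilter 𝒰 (Eventually.of_forall fun k => (hd k).differentiableOn) (hb _)
  choose h hdf hcv using hmont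
  have hmem : ∀ z : ℂ, z ∈ ball (0 : ℂ) ((⌈‖z‖⌉₊ : ℕ) + 1) := by
    intro z
    rw [mem_ball_zero_iff]
    have := Nat.le_ceil ‖z‖
    linarith
  obtain ⟨H, hH⟩ : ∃ H : ℂ → EN N, H = fun z => h ⌈‖z‖⌉₊ z := ⟨_, rfl⟩
  have hHt : ∀ z, Tendsto (fun k => Φ k z) (𝒰 : Filter ℕ) (𝓝 (H z)) := by
    intro z
    rw [hH]
    exact (hcv _).tendsto_at (hmem z)
  have hHR : ∀ R : ℕ, ∀ z ∈ ball (0 : ℂ) (R + 1), H z = h R z := fun R z hz =>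
    tendsto_nhds_unique (hHt z) ((hcv R).tendsto_at hz)
  refine ⟨H, fun u hu z _ => ?_⟩
  have hz := hmem z
  obtain ⟨t, ht, hev⟩ := hcv _ u hu z hz
  have ht' : t ∈ 𝓝 z := by
    rwa [isOpen_ball.nhdsWithin_eq hz] at ht
  refine ⟨t ∩ ball 0 ((⌈‖z‖⌉₊ : ℕ) + 1), ?_, ?_⟩
  · rw [nhdsWithin_univ]
    exact inter_mem ht' (isOpen_ball.mem_nhds hz)
  · filter_upwards [hev] with k hk y hy
    rw [hHR _ y hy.2]
    exact hk y hy.1

/-- the quotients of a differentiable map -/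
private theorem rig_quot {E₁ E₂ : Type} [NormedAddCommGroup E₁] [NormedSpace ℂ E₁] [NormedAddCommGroup E₂] [NormedSpace ℂ E₂] {𝒰 : Filter ℕ}
    {E : E₁ → E₂} {x₀ v : E₁} (hE : HasStrictFDerivAt E (fderiv ℂ E x₀) x₀) {x y : ℕ → E₁} {s : ℕ → ℝ} (hs : ∀ n, 0 < s n) (hs0 : Tendsto s 𝒰 (𝓝 0))
    (hx : Tendsto x 𝒰 (𝓝 x₀)) (hv : Tendsto (fun n => ((s n : ℂ)⁻¹) • (y n - x n)) 𝒰 (𝓝 v)) :
    Tendsto (fun n => ((s n : ℂ)⁻¹) • (E (y n) - E (x n))) 𝒰 (𝓝 (fderiv ℂ E x₀ v)) := by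
  have hsc : ∀ n, (s n : ℂ) ≠ 0 := fun n => Complex.ofReal_ne_zero.2 (hs n).ne'
  have hy : Tendsto y 𝒰 (𝓝 x₀) := by
    have h1 : Tendsto (fun n => x n + (s n : ℂ) • (((s n : ℂ)⁻¹) • (y n - x n))) 𝒰 (𝓝 (x₀ + ((0 : ℝ) : ℂ) • v)) :=
      hx.add (((Complex.continuous_ofReal.tendsto 0).comp hs0).smul hv)
    rw [Complex.ofReal_zero, zero_smul, add_zero] at h1
    refine h1.congr fun n => ?_
    rw [smul_smul, mul_inv_cancel₀ (hsc n), one_smul, add_sub_cancel]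
  have ho := hE.isLittleO
  have hxy : Tendsto (fun n => (y n, x n)) 𝒰 (𝓝 (x₀, x₀)) := hy.prodMk_nhds hx
  have ho2 := ho.comp_tendsto hxy
  -- the error divided by `s`
  have h3 : Tendsto (fun n => ((s n : ℂ)⁻¹) • (E (y n) - E (x n) - fderiv ℂ E x₀ (y n - x n))) 𝒰 (𝓝 0) := by
    have h4 : (fun n => ((s n : ℂ)⁻¹) • (E (y n) - E (x n) - fderiv ℂ E x₀ (y n - x n))) =o[𝒰] fun n => ((s n : ℂ)⁻¹) • (y n - x n) :=
      (Asymptotics.isBigO_refl (fun n => (s n : ℂ)⁻¹) 𝒰).smul_isLittleO ho2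
    have h5 : (fun n => ((s n : ℂ)⁻¹) • (y n - x n)) =O[𝒰] fun _ => (1 : ℝ) := hv.isBigO_one ℝ
    exact (Asymptotics.isLittleO_one_iff ℝ).1 (h4.trans_isBigO h5)
  have h6 : Tendsto (fun n => fderiv ℂ E x₀ (((s n : ℂ)⁻¹) • (y n - x n))) 𝒰 (𝓝 (fderiv ℂ E x₀ v)) :=
    ((fderiv ℂ E x₀).continuous.tendsto v).comp hv
  have h7 := h3.add h6
  rw [zero_add] at h7
  refine h7.congr fun n => ?_
  rw [map_smul, ← smul_add, sub_add_cancel]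

theorem KF_rigid (hG : G.Ok) (hf : Facts G T rho δ γ A' B) (hq : HFacts G T rho δ 𝒬) (ht : TubeBd G T rho δ γ A' B) (hr : RigidF G T) (M₀ L : ℝ) :
    ∃ r₀ : ℝ, ∀ r ≥ r₀, Rigid (KF G T rho δ γ A' B β β' q 𝒬) M₀ L r γ := by
  obtain ⟨γ', hγ', htube⟩ := ht
  obtain ⟨r₀, hr₀⟩ := htube q β β' M₀ L
  refine ⟨r₀, fun r hrr 𝒰 h𝒰 F H z s ε n A hF hH hz hs hs0 hε hn hεn hb => ?_⟩
  obtain ⟨K, hK, hbd⟩ := hr₀ r hrr A
  have hF0 : ∀ k, ‖F k 0‖ ≤ M₀ := fun k => by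
    have h1 := (hz k).good 0
    rwa [(hz k).zero] at h1
  obtain ⟨F₀, hF₀, hlim⟩ := KF_cpt hG hf hq h𝒰 hF hF0
  have hdF : ∀ k, Differentiable ℂ (F k) := fun k => (hF k).1.cl.ent.diff
  have hdH : ∀ k, Differentiable ℂ (H k) := fun k => (hH k).1.cl.ent.diff
  have hdF₀ : Differentiable ℂ F₀ := hF₀.1.cl.ent.diff
  have hsc : ∀ k, (s k : ℂ) ≠ 0 := fun k => Complex.ofReal_ne_zero.2 (hs k).ne'
  have hs1 : ∀ᶠ k in (𝒰 : Filter ℕ), s k ≤ 1 := (hs0.eventually (gt_mem_nhds zero_lt_one)).mono fun k hk => hk.le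
  -- the bound of the quotients
  have hV1 : ∀ᶠ k in (𝒰 : Filter ℕ), ∀ y : ℂ, ‖((s k : ℂ)⁻¹) • (H k y - F k y)‖ ≤
      Real.exp (K * pw γ' ‖y‖ + K * (ε k * Real.log (2 + n k)) * (1 + ‖y‖)) * ‖F k y‖ ∧
      ∀ i, ‖((s k : ℂ)⁻¹) • (G.E i (H k y) - G.E i (F k y))‖ ≤
        Real.exp (K * pw γ' ‖y‖ + K * (ε k * Real.log (2 + n k)) * (1 + ‖y‖)) * ‖G.E i (F k y)‖ := by
    filter_upwards [hs1] with k hk y
    obtain ⟨h1, h2⟩ := hbd (F k) (H k) (z k) (s k) (ε k) (n k) (hF k).1 (hH k).1 (hz k) (hs k) hk (hε k) (hn k) (hb k) y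
    have h3 : ∀ {x e f : ℝ}, x ≤ s k * e * f → (s k)⁻¹ * x ≤ e * f := fun {x e f} h => by
      rw [inv_mul_le_iff₀ (hs k)]
      linarith
    have h4 : ‖(s k : ℂ)⁻¹‖ = (s k)⁻¹ := by
      rw [norm_inv, Complex.norm_real, Real.norm_of_nonneg (hs k).le]
    refine ⟨?_, fun i => ?_⟩
    · rw [norm_smul, h4]
      exact h3 h1
    · rw [norm_smul, h4]
      exact h3 (h2 i)
  -- local boundedness
  have hbR : ∀ R : ℝ, ∃ C : ℝ, ∀ᶠ k in (𝒰 : Filter ℕ), ∀ y ∈ ball (0 : ℂ) R, ‖((s k : ℂ)⁻¹) • (H k y - F k y)‖ ≤ C := by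
    intro R
    have h1 : TendstoUniformlyOn F F₀ 𝒰 (closedBall (0 : ℂ) R) :=
      (tendstoLocallyUniformlyOn_iff_forall_isCompact isOpen_univ).1 hlim _ (Set.subset_univ _) (isCompact_closedBall _ _)
    obtain ⟨C₀, hC₀⟩ := (isCompact_closedBall (0 : ℂ) R).exists_bound_of_continuousOn hdF₀.continuous.continuousOn
    rw [Metric.tendstoUniformlyOn_iff] at h1
    have h2 : ∀ᶠ k in (𝒰 : Filter ℕ), ε k * Real.log (2 + n k) ≤ 1 := (hεn.eventually (gt_mem_nhds zero_lt_one)).mono fun k hk => hk.le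
    refine ⟨Real.exp (K * (2 + |R|) + K * (1 + |R|)) * (|C₀| + 1), ?_⟩
    filter_upwards [hV1, h1 1 one_pos, h2] with k hk1 hk2 hk3 y hy
    have hyR : ‖y‖ ≤ |R| := (mem_ball_zero_iff.1 hy).le.trans (le_abs_self R)
    have hy' : y ∈ closedBall (0 : ℂ) R := ball_subset_closedBall hy
    refine (hk1 y).1.trans (mul_le_mul (Real.exp_le_exp.2 ?_) ?_ (norm_nonneg _) (Real.exp_pos _).le)
    · have h3 : pw γ' ‖y‖ ≤ 2 + |R| := by
        unfold pw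
        have h0 : 0 ≤ ‖y‖ := norm_nonneg y
        calc (2 + ‖y‖) ^ γ' ≤ (2 + ‖y‖) ^ (1 : ℝ) := Real.rpow_le_rpow_of_exponent_le (by linarith) hγ'.le
          _ = 2 + ‖y‖ := Real.rpow_one _
          _ ≤ 2 + |R| := by linarith
      have h4 : K * (ε k * Real.log (2 + n k)) * (1 + ‖y‖) ≤ K * (1 + |R|) := by
        have h5 : K * (ε k * Real.log (2 + n k)) ≤ K := by
          calc K * (ε k * Real.log (2 + n k)) ≤ K * 1 := mul_le_mul_of_nonneg_left hk3 hK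
            _ = K := mul_one K
        calc K * (ε k * Real.log (2 + n k)) * (1 + ‖y‖) ≤ K * (1 + ‖y‖) :=
              mul_le_mul_of_nonneg_right h5 (by positivity)
          _ ≤ K * (1 + |R|) := mul_le_mul_of_nonneg_left (by linarith) hK
      have h6 : K * pw γ' ‖y‖ ≤ K * (2 + |R|) := mul_le_mul_of_nonneg_left h3 hK
      linarith
    · have h3 := hk2 y hy'
      rw [dist_eq_norm] at h3
      have h4 := hC₀ y hy'
      calc ‖F k y‖ = ‖F₀ y - (F₀ y - F k y)‖ := by rw [sub_sub_cancel]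
        _ ≤ ‖F₀ y‖ + ‖F₀ y - F k y‖ := norm_sub_le _ _
        _ ≤ |C₀| + 1 := add_le_add (h4.trans (le_abs_self _)) h3.le
  choose bb hbb using hbR
  obtain ⟨V, hV⟩ := rig_montel 𝒰 (Φ := fun k y => ((s k : ℂ)⁻¹) • (H k y - F k y))
    (fun k => Differentiable.fun_const_smul ((hdH k).fun_sub (hdF k)) _) hbb
  have hVt : ∀ y : ℂ, Tendsto (fun k => ((s k : ℂ)⁻¹) • (H k y - F k y)) 𝒰 (𝓝 (V y)) := fun y => hV.tendsto_at (Set.mem_univ y)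
  have hFt : ∀ y : ℂ, Tendsto (fun k => F k y) 𝒰 (𝓝 (F₀ y)) := fun y => hlim.tendsto_at (Set.mem_univ y)
  have hEt : ∀ y : ℂ, Tendsto (fun k => Real.exp (K * pw γ' ‖y‖ + K * (ε k * Real.log (2 + n k)) * (1 + ‖y‖))) 𝒰
      (𝓝 (Real.exp (K * pw γ' ‖y‖))) := by
    intro y
    have h1 : Tendsto (fun k => K * pw γ' ‖y‖ + K * (ε k * Real.log (2 + n k)) * (1 + ‖y‖)) 𝒰
        (𝓝 (K * pw γ' ‖y‖ + K * 0 * (1 + ‖y‖))) := ((hεn.const_mul K).mul_const _).const_add _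
    rw [mul_zero, zero_mul, add_zero] at h1
    exact (Real.continuous_exp.tendsto _).comp h1
  have hbound : ∀ y : ℂ, ‖V y‖ ≤ Real.exp (K * pw γ' ‖y‖) * ‖F₀ y‖ ∧
      ∀ i, ‖fderiv ℂ (G.E i) (F₀ y) (V y)‖ ≤ Real.exp (K * pw γ' ‖y‖) * ‖G.E i (F₀ y)‖ := by
    intro y
    refine ⟨le_of_tendsto_of_tendsto (hVt y).norm ((hEt y).mul (hFt y).norm) (hV1.mono fun k hk => (hk y).1), fun i => ?_⟩
    have hstr : HasStrictFDerivAt (G.E i) (fderiv ℂ (G.E i) (F₀ y)) (F₀ y) := (hG.anE i (F₀ y)).hasStrictFDerivAt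
    have h1 := rig_quot hstr hs hs0 (hFt y) (hVt y)
    have h2 : Tendsto (fun k => G.E i (F k y)) 𝒰 (𝓝 (G.E i (F₀ y))) := ((hG.anE i (F₀ y)).continuousAt.tendsto).comp (hFt y)
    exact le_of_tendsto_of_tendsto h1.norm ((hEt y).mul h2.norm) (hV1.mono fun k hk => (hk y).2 i)
  obtain ⟨c, hc⟩ := hr 𝒰 h𝒰 q F H s F₀ V γ' hγ' (fun k => (hF k).1.cl) (fun k => (hH k).1.cl) hF₀.1.cl hs hs0 hlim hV ⟨K, hbound⟩
  refine ⟨F₀, hF₀, c, hlim, ?_⟩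
  have h1 : V = fun y => c • deriv F₀ y := funext hc
  rwa [h1] at hV

end Pool.Agent.SR3.G
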