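import Mathlib

/-!
# SR3 G Defs: compact families of entire curves, chains of good points, followed pairs

Everything is abstract: `KK` is a set of entire functions with values in the normed space `V`.
-/

set_option autoImplicit false

open Topology Filter Metric

noncomputable section

namespace Pool.Agent.SR3.G

variable {V : Type} [NormedAddCommGroup V] [NormedSpace ℂ V]

/-- the translate `F (· + a)` -/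
def sh (a : ℂ) (F : ℂ → V) : ℂ → V := fun z => F (z + a)

/-- the mirror image `F (- ·)` -/
def ng (F : ℂ → V) : ℂ → V := fun z => F (-z)

/-- the distance of two curves on the disc of radius `r` -/
def dQ (r : ℝ) (F H : ℂ → V) : ℝ := sSup ((fun w => ‖H w - F w‖) '' closedBall 0 r)

/-- the distance of `F (a + ·)` and `H (a + b + ·)` on the disc of radius `r` -/
def dev (r : ℝ) (F H : ℂ → V) (a b : ℂ) : ℝ := dQ r (sh a F) (sh (a + b) H)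

/-- `(2 + r) ^ γ` -/
def pw (γ r : ℝ) : ℝ := (2 + r) ^ γ

/-- A compact family of entire curves whose bounded parts are near the real axis. -/
structure Sys (KK : Set (ℂ → V)) (M γ : ℝ) : Prop where
  γ_pos : 0 < γ
  γ_lt : γ < 1
  nonempty : ∃ F ∈ KK, ‖F 0‖ ≤ M
  diff : ∀ F ∈ KK, Differentiable ℂ F
  imm : ∀ F ∈ KK, ∀ z, deriv F z ≠ 0
  shift : ∀ F ∈ KK, ∀ a : ℂ, sh a F ∈ KK
  cpt : ∀ 𝒰 : Ultrafilter ℕ, (𝒰 : Filter ℕ) ≤ atTop → ∀ (B : ℝ) (F : ℕ → ℂ → V), (∀ k, F k ∈ KK) → (∀ k, ‖F k 0‖ ≤ B) →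
    ∃ H ∈ KK, TendstoLocallyUniformlyOn F H 𝒰 Set.univ
  grow : ∀ B : ℝ, ∃ C : ℝ, ∀ F ∈ KK, ‖F 0‖ ≤ B → ∀ z : ℂ, ‖F z‖ ≤ Real.exp (C * (|z.im| + pw γ ‖z‖))
  thin : ∀ B : ℝ, ∃ C : ℝ, ∀ F ∈ KK, ‖F 0‖ ≤ B → ∀ z : ℂ, ‖F z‖ ≤ B → |z.im| ≤ C * pw γ ‖z‖
  dense : ∃ l : ℝ, ∀ F ∈ KK, ‖F 0‖ ≤ M → ∀ x : ℝ, ∃ z : ℂ, |z.re - x| ≤ l ∧ ‖F z‖ ≤ M

/-- a chain of points where `‖F‖ ≤ M` -/
structure IsChain (M L : ℝ) (F : ℂ → V) (z : ℤ → ℂ) : Prop where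
  zero : z 0 = 0
  good : ∀ k, ‖F (z k)‖ ≤ M
  re : ∀ k, 1 ≤ (z (k + 1)).re - (z k).re
  norm : ∀ k, ‖z (k + 1) - z k‖ ≤ L

/-- **Rigidity** (block F): if `(H n - F n) / s n` is small on the tube of radius `r` around the chain, then the limit is a multiple of `F'`. -/
def Rigid (KK : Set (ℂ → V)) (M L r γ : ℝ) : Prop :=
  ∀ 𝒰 : Ultrafilter ℕ, (𝒰 : Filter ℕ) ≤ atTop → ∀ (F H : ℕ → ℂ → V) (z : ℕ → ℤ → ℂ) (s ε N : ℕ → ℝ) (A : ℝ),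
    (∀ n, F n ∈ KK) → (∀ n, H n ∈ KK) → (∀ n, IsChain M L (F n) (z n)) → (∀ n, 0 < s n) → Tendsto s 𝒰 (𝓝 0) → (∀ n, 0 ≤ ε n) → (∀ n, 0 ≤ N n) →
    Tendsto (fun n => ε n * Real.log (2 + N n)) 𝒰 (𝓝 0) →
    (∀ (n : ℕ) (k : ℤ) (w : ℂ), ‖w‖ ≤ r →
      ‖H n (z n k + w) - F n (z n k + w)‖ ≤ s n * Real.exp (A * pw γ |(k : ℝ)| + ε n * min |(k : ℝ)| (N n))) →
    ∃ F₀ ∈ KK, ∃ c : ℂ, TendstoLocallyUniformlyOn F F₀ 𝒰 Set.univ ∧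
      TendstoLocallyUniformlyOn (fun n z => ((s n : ℂ)⁻¹) • (H n z - F n z)) (fun z => c • deriv F₀ z) 𝒰 Set.univ

/-- **Log integral** (block F): two curves which are very close along one half of a chain are equal. -/
def LogI (KK : Set (ℂ → V)) (M L r : ℝ) : Prop :=
  ∀ F ∈ KK, ∀ H ∈ KK, ∀ z : ℤ → ℂ, IsChain M L F z → ∀ c C : ℝ, 0 < c →
    (∀ (k : ℕ) (w : ℂ), ‖w‖ ≤ r → ‖H (z k + w) - F (z k + w)‖ ≤ Real.exp (C - c * (k / Real.log (2 + k)))) → H = F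

/-- the constants -/
structure Cst (KK : Set (ℂ → V)) (M L r b₀ c₁ C₂ : ℝ) : Prop where
  L1 : 1 ≤ L
  rL : L + 1 ≤ r
  b₀_pos : 0 < b₀
  b₀_le : b₀ ≤ 1 / 8
  c₁_pos : 0 < c₁
  c₁_le : c₁ ≤ 1
  C₂_ge : 1 ≤ C₂
  chain : ∀ F ∈ KK, ‖F 0‖ ≤ M → ∃ z, IsChain M L F z
  lip : ∀ F ∈ KK, ‖F 0‖ ≤ M + 1 → ∀ w b : ℂ, ‖w‖ ≤ r → ‖b‖ ≤ 2 → ‖F (w + b) - F w‖ ≤ C₂ * ‖b‖
  inj : ∀ F ∈ KK, ‖F 0‖ ≤ M + 1 → ∀ b : ℂ, ‖b‖ ≤ 4 * b₀ → ∃ w : ℂ, ‖w‖ ≤ 1 ∧ c₁ * ‖b‖ ≤ ‖F (w + b) - F w‖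

/-- `H` follows `F` with the shifts `b k`, at the indices `k` in `I`. -/
structure Track (r b₀ ε : ℝ) (F H : ℂ → V) (z b : ℤ → ℂ) (I : Set ℤ) : Prop where
  le : ∀ k ∈ I, dev r F H (z k) (b k) ≤ ε
  min : ∀ k ∈ I, ∀ b' : ℂ, ‖b' - b k‖ ≤ b₀ → dev r F H (z k) (b k) ≤ dev r F H (z k) b'
  near : ∀ k, k ∈ I → k + 1 ∈ I → ‖b (k + 1) - b k‖ ≤ b₀

/-- the threshold `ε₀` of the expansivity -/
structure Expa (KK : Set (ℂ → V)) (M L r b₀ c₁ ε₀ : ℝ) : Prop where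
  pos : 0 < ε₀
  le : ε₀ ≤ c₁ * b₀ / 4
  exp : ∀ F ∈ KK, ∀ H ∈ KK, ∀ z b : ℤ → ℂ, IsChain M L F z → Track r b₀ ε₀ F H z b Set.univ → ∀ k, dev r F H (z k) (b k) = 0

/-- no member of the family is periodic -/
def NoPer (KK : Set (ℂ → V)) : Prop := ∀ F ∈ KK, ∀ ω : ℂ, (∀ z, F (z + ω) = F z) → ω = 0

/-- a pair which is close along one half of a chain, and not equal -/
structure Asym (KK : Set (ℂ → V)) (M L r b₀ ε₀ : ℝ) (F H : ℂ → V) (z b : ℤ → ℂ) : Prop where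
  memF : F ∈ KK
  memH : H ∈ KK
  chain : IsChain M L F z
  track : Track r b₀ ε₀ F H z b (Set.Ici 0)
  pos : ∀ k : ℤ, 0 ≤ k → 0 < dev r F H (z k) (b k)

end Pool.Agent.SR3.G
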