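import Pool.Agent.SR3.Defs
import Pool.Agent.SR3.G.Defs

/-!
# SR3 G ODefs: the families of curves of the class with the same (horizontal) direction and the same rates
-/

set_option autoImplicit false

open Topology Filter Metric

noncomputable section

namespace Pool.Agent.SR3.G

open Pool.Agent.H36.BP (EN)
open Pool.Agent.SR3 (Geo)
open Pool.Agent.SR3.Geo (Gd)

variable {N : ℕ}

/-- the conclusion of `straight`, for given constants -/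
structure Str (G : Geo N) (T : Set (EN N)) (rho : EN N → ℝ) (δ γ A' B : ℝ) : Prop where
  γ_pos : 0 < γ
  γ_lt : γ < 1
  A'_pos : 0 < A'
  B_pos : 0 < B
  fits : ∀ (q : G.J → ℂ) (F : ℂ → EN N), G.Cl T q F → ∀ a ∈ Gd rho δ F,
    ∃ (u : ℂ) (β β' : G.ι → ℝ), G.Fits F a u β β' (fun z => B * Pool.Agent.SR3.pw γ ‖z - a‖) Set.univ ∧ A' ≤ ∑ i, β i ∧ A' ≤ ∑ i, β' i

/-- The curves of the class with the horizontal direction, the rates `β`, `β'` and the value `q`. -/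
structure Mem (G : Geo N) (T : Set (EN N)) (rho : EN N → ℝ) (δ γ A' B : ℝ) (β β' : G.ι → ℝ) (q : G.J → ℂ) (F : ℂ → EN N) : Prop where
  cl : G.Cl T q F
  sum : A' ≤ ∑ i, β i
  sum' : A' ≤ ∑ i, β' i
  fits : ∃ a ∈ Gd rho δ F, G.Fits F a Complex.I β β' (fun z => B * Pool.Agent.SR3.pw γ ‖z - a‖) Set.univ

/-- the family: the members which lie in none of the curves `{Q = 0}` -/
def KF (G : Geo N) (T : Set (EN N)) (rho : EN N → ℝ) (δ γ A' B : ℝ) (β β' : G.ι → ℝ) (q : G.J → ℂ) (𝒬 : Set (EN N → ℂ)) : Set (ℂ → EN N) :=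
  {F | Mem G T rho δ γ A' B β β' q F ∧ ∀ Q ∈ 𝒬, ∃ z, Q (F z) ≠ 0}

/-- the second metrics -/
def HMet (G : Geo N) (T : Set (EN N)) (𝒬 : Set (EN N → ℂ)) : Prop :=
  ∀ R ∈ 𝒬, ∃ Q ∈ 𝒬, (∀ x, R x = 0 → Q x = 0) ∧ (∀ x ∈ T, Q x = 0) ∧
    ∃ (rho' : EN N → ℝ) (M' : ℕ) (c₀' C' δ' : ℝ) (g' : (ℂ → EN N) → ℂ → ℝ), G.Met {x | x ∈ G.X ∧ Q x = 0} rho' M' c₀' C' δ' g'

/-- **(F1)**, block F -/
def TubeBd (G : Geo N) (T : Set (EN N)) (rho : EN N → ℝ) (δ γ A' B : ℝ) : Prop :=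
  ∃ γ' : ℝ, γ' < 1 ∧ ∀ (q : G.J → ℂ) (β β' : G.ι → ℝ) (M₀ L : ℝ), ∃ r₀ : ℝ, ∀ r ≥ r₀, ∀ A : ℝ, ∃ K : ℝ, 0 ≤ K ∧
    ∀ (F H : ℂ → EN N) (z : ℤ → ℂ) (s ε n : ℝ), Mem G T rho δ γ A' B β β' q F → Mem G T rho δ γ A' B β β' q H → IsChain M₀ L F z →
      0 < s → s ≤ 1 → 0 ≤ ε → 0 ≤ n →
      (∀ (k : ℤ) (w : ℂ), ‖w‖ ≤ r → ‖H (z k + w) - F (z k + w)‖ ≤ s * Real.exp (A * pw γ |(k : ℝ)| + ε * min |(k : ℝ)| n)) →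
      ∀ y : ℂ, ‖H y - F y‖ ≤ s * Real.exp (K * pw γ' ‖y‖ + K * (ε * Real.log (2 + n)) * (1 + ‖y‖)) * ‖F y‖ ∧
        ∀ i, ‖G.E i (H y) - G.E i (F y)‖ ≤ s * Real.exp (K * pw γ' ‖y‖ + K * (ε * Real.log (2 + n)) * (1 + ‖y‖)) * ‖G.E i (F y)‖

/-- **(F2)**, block F: from the chain to the real axis -/
def FirstP (G : Geo N) (T : Set (EN N)) (rho : EN N → ℝ) (δ γ A' B : ℝ) : Prop :=
  ∀ (q : G.J → ℂ) (β β' : G.ι → ℝ) (M₀ L : ℝ), ∃ r₀ : ℝ, ∀ r ≥ r₀, ∀ (F H : ℂ → EN N) (z : ℤ → ℂ) (c C : ℝ),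
    Mem G T rho δ γ A' B β β' q F → Mem G T rho δ γ A' B β β' q H → IsChain M₀ L F z → 0 < c →
    (∀ (k : ℕ) (w : ℂ), ‖w‖ ≤ r → ‖H (z k + w) - F (z k + w)‖ ≤ Real.exp (C - c * (k / Real.log (2 + k)))) →
    ∃ c' C' : ℝ, 0 < c' ∧ ∀ x : ℝ, 0 ≤ x → ‖H x - F x‖ ≤ Real.exp (C' - c' * (x / Real.log (2 + x)))

/-- the conclusion of `Face.rigid` -/
def RigidF (G : Geo N) (T : Set (EN N)) : Prop :=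
  ∀ 𝒰 : Ultrafilter ℕ, (𝒰 : Filter ℕ) ≤ atTop → ∀ (q : G.J → ℂ) (F H : ℕ → ℂ → EN N) (l : ℕ → ℝ) (F₀ V : ℂ → EN N) (γ : ℝ), γ < 1 →
    (∀ k, G.Cl T q (F k)) → (∀ k, G.Cl T q (H k)) → G.Cl T q F₀ → (∀ k, 0 < l k) → Tendsto l 𝒰 (𝓝 0) →
    TendstoLocallyUniformlyOn F F₀ 𝒰 Set.univ → TendstoLocallyUniformlyOn (fun k z => ((l k : ℂ)⁻¹) • (H k z - F k z)) V 𝒰 Set.univ →
    (∃ B : ℝ, ∀ z, ‖V z‖ ≤ Real.exp (B * Pool.Agent.SR3.pw γ ‖z‖) * ‖F₀ z‖ ∧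
      ∀ i, ‖fderiv ℂ (G.E i) (F₀ z) (V z)‖ ≤ Real.exp (B * Pool.Agent.SR3.pw γ ‖z‖) * ‖G.E i (F₀ z)‖) →
    ∃ c : ℂ, ∀ z, V z = c • deriv F₀ z

/-- the facts of the other blocks, for the first curve `T` -/
structure Facts (G : Geo N) (T : Set (EN N)) (rho : EN N → ℝ) (δ γ A' B : ℝ) : Prop where
  str : Str G T rho δ γ A' B
  good : ∀ (q : G.J → ℂ) (F : ℂ → EN N), G.Cl T q F → (Gd rho δ F).Nonempty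
  growth : ∃ B₁ : ℝ, 0 ≤ B₁ ∧ ∀ (q : G.J → ℂ) (F : ℂ → EN N), G.Cl T q F → ∀ z, Real.log ‖F z‖ ≤ B₁ * (1 + infDist z (Gd rho δ F))
  gapD : ∀ B₁ : ℝ, ∃ R : ℝ, ∀ (q : G.J → ℂ) (F : ℂ → EN N), G.Cl T q F → ∀ z, Real.log ‖F z‖ ≤ B₁ → infDist z (Gd rho δ F) ≤ R
  lower : ∃ c B₁ : ℝ, 0 < c ∧ ∀ (q : G.J → ℂ) (F : ℂ → EN N), G.Cl T q F → ∀ z, c * infDist z (Gd rho δ F) - B₁ ≤ Real.log ‖F z‖
  cpt : ∀ 𝒰 : Ultrafilter ℕ, (𝒰 : Filter ℕ) ≤ atTop → ∀ (q : ℕ → G.J → ℂ) (F : ℕ → ℂ → EN N), (∀ k, G.Cl T (q k) (F k)) → (∀ k, δ ≤ rho (F k 0)) →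
    ∃ (q' : G.J → ℂ) (H : ℂ → EN N), G.Cl T q' H ∧ Tendsto q 𝒰 (𝓝 q') ∧ δ ≤ rho (H 0) ∧ TendstoLocallyUniformlyOn F H 𝒰 Set.univ

/-- (15), block F, for a second metric: the curve `T' ⊇ T` -/
structure Facts' (G : Geo N) (T : Set (EN N)) (rho : EN N → ℝ) (δ : ℝ) (T' : Set (EN N)) (rho' : EN N → ℝ) (δ' : ℝ) : Prop where
  dense' : ∃ R : ℝ, ∀ (q : G.J → ℂ) (F : ℂ → EN N), G.Cl T' q F → ∀ a ∈ Gd rho δ F, ∃ b ∈ Gd rho' δ' F, dist a b ≤ R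
  cpt : ∀ 𝒰 : Ultrafilter ℕ, (𝒰 : Filter ℕ) ≤ atTop → ∀ (q : ℕ → G.J → ℂ) (F : ℕ → ℂ → EN N), (∀ k, G.Cl T' (q k) (F k)) → (∀ k, δ' ≤ rho' (F k 0)) →
    ∃ (q' : G.J → ℂ) (H : ℂ → EN N), G.Cl T' q' H ∧ Tendsto q 𝒰 (𝓝 q') ∧ δ' ≤ rho' (H 0) ∧ TendstoLocallyUniformlyOn F H 𝒰 Set.univ

/-- `Facts'` for all the second metrics -/
def HFacts (G : Geo N) (T : Set (EN N)) (rho : EN N → ℝ) (δ : ℝ) (𝒬 : Set (EN N → ℂ)) : Prop :=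
  ∀ R ∈ 𝒬, ∃ Q ∈ 𝒬, (∀ x, R x = 0 → Q x = 0) ∧ (∀ x ∈ T, Q x = 0) ∧ ∃ (rho' : EN N → ℝ) (δ' : ℝ),
    Facts' G T rho δ {x | x ∈ G.X ∧ Q x = 0} rho' δ' 

end Pool.Agent.SR3.G
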