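import Pool.Agent.SR3.G.DQ

/-!
# SR3 G Cpt: uniform Lipschitz bounds, uniform injectivity, propagation of closeness

PROOF.  `exists_lip`: `grow` and Cauchy.  `exists_inj`: by contradiction, `F_n`, `b_n → 0`, `b_n ≠ 0`: `(F_n (b_n) - F_n (0)) / b_n → H' (0)` along an
ultrafilter, so `H' (0) = 0`, against `imm`.  `exists_prop`: by contradiction; `dQ → 0`, so the limits agree on the disc, so everywhere.
-/

set_option autoImplicit false

open Topology Filter Metric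

noncomputable section

namespace Pool.Agent.SR3.G

variable {V : Type} [NormedAddCommGroup V] [NormedSpace ℂ V] [CompleteSpace V] {KK : Set (ℂ → V)} {M γ : ℝ} {r : ℝ}

omit [CompleteSpace V] in
private theorem cpt_bound (h : Sys KK M γ) (R B : ℝ) : ∃ K : ℝ, ∀ F ∈ KK, ‖F 0‖ ≤ B → ∀ z : ℂ, ‖z‖ ≤ R → ‖F z‖ ≤ K := by
  obtain ⟨C, hC⟩ := h.grow B
  refine ⟨Real.exp (|C| * (|R| + pw γ |R|)), fun F hF h0 z hz => ?_⟩
  refine (hC F hF h0 z).trans (Real.exp_le_exp.2 ?_)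
  have hzR : ‖z‖ ≤ |R| := hz.trans (le_abs_self R)
  have h1 : |z.im| ≤ |R| := (Complex.abs_im_le_norm z).trans hzR
  have h2 : pw γ ‖z‖ ≤ pw γ |R| := by
    unfold pw
    exact Real.rpow_le_rpow (by positivity) (by linarith) h.γ_pos.le
  have h3 : 0 ≤ |z.im| + pw γ ‖z‖ := by
    unfold pw
    positivity
  calc C * (|z.im| + pw γ ‖z‖) ≤ |C| * (|z.im| + pw γ ‖z‖) := mul_le_mul_of_nonneg_right (le_abs_self C) h3
    _ ≤ |C| * (|R| + pw γ |R|) := mul_le_mul_of_nonneg_left (by linarith) (abs_nonneg C)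

omit [CompleteSpace V] in
theorem exists_lip (h : Sys KK M γ) (r B : ℝ) :
    ∃ C₂ : ℝ, 1 ≤ C₂ ∧ ∀ F ∈ KK, ‖F 0‖ ≤ B → ∀ w b : ℂ, ‖w‖ ≤ r → ‖b‖ ≤ 2 → ‖F (w + b) - F w‖ ≤ C₂ * ‖b‖ := by
  obtain ⟨K, hK⟩ := cpt_bound h (r + 3) B
  refine ⟨max 1 K, le_max_left _ _, fun F hF h0 w b hw hb => ?_⟩
  have hd := h.diff F hF
  have h1 : ∀ z : ℂ, ‖z‖ ≤ r + 2 → ‖deriv F z‖ ≤ max 1 K := by
    intro z hz
    have h2 := Complex.norm_deriv_le_of_forall_mem_sphere_norm_le (c := z) (R := 1) (C := K) (f := F) one_pos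
      hd.diffContOnCl fun y hy => hK F hF h0 y (by
        have : ‖y - z‖ = 1 := by simpa [dist_eq_norm] using hy
        calc ‖y‖ = ‖(y - z) + z‖ := by rw [sub_add_cancel]
          _ ≤ ‖y - z‖ + ‖z‖ := norm_add_le _ _
          _ ≤ r + 3 := by linarith)
    rw [div_one] at h2
    exact h2.trans (le_max_right _ _)
  have h3 := (convex_closedBall (0 : ℂ) (r + 2)).norm_image_sub_le_of_norm_deriv_le (𝕜 := ℂ) (f := F) (C := max 1 K) (x := w) (y := w + b)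
    (fun z _ => hd z) (fun z hz => h1 z (by simpa using hz)) (by simpa using by linarith) (by
      have : ‖w + b‖ ≤ ‖w‖ + ‖b‖ := norm_add_le _ _
      simpa using by linarith)
  simpa using h3

theorem exists_inj (h : Sys KK M γ) (B : ℝ) :
    ∃ b₀ c₁ : ℝ, 0 < b₀ ∧ b₀ ≤ 1 / 8 ∧ 0 < c₁ ∧ c₁ ≤ 1 ∧ ∀ F ∈ KK, ‖F 0‖ ≤ B → ∀ b : ℂ, ‖b‖ ≤ 4 * b₀ → ∃ w : ℂ, ‖w‖ ≤ 1 ∧ c₁ * ‖b‖ ≤ ‖F (w + b) - F w‖ := by
  by_contra hcon
  push Not at hcon
  have hs : ∀ n : ℕ, ∃ F ∈ KK, ‖F 0‖ ≤ B ∧ ∃ b : ℂ, ‖b‖ ≤ 4 * (1 / (8 * ((n : ℝ) + 1))) ∧ ∀ w : ℂ, ‖w‖ ≤ 1 → ‖F (w + b) - F w‖ < 1 / (8 * ((n : ℝ) + 1)) * ‖b‖ := by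
    intro n
    have h1 : (0 : ℝ) < 1 / (8 * ((n : ℝ) + 1)) := by positivity
    have h2 : (1 : ℝ) / (8 * ((n : ℝ) + 1)) ≤ 1 / 8 := by
      apply one_div_le_one_div_of_le (by norm_num)
      nlinarith [(Nat.cast_nonneg n : (0 : ℝ) ≤ n)]
    obtain ⟨F, hF, h0, b, hb, hw⟩ := hcon _ _ h1 h2 h1 (h2.trans (by norm_num))
    exact ⟨F, hF, h0, b, hb, hw⟩
  choose F hF h0 b hb hw using hs
  obtain ⟨H, hH, hlim⟩ := h.cpt (hyperfilter ℕ) Nat.hyperfilter_le_atTop B F hF h0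
  have hHd := h.diff H hH
  apply h.imm H hH 0
  have hder : TendstoLocallyUniformlyOn (deriv ∘ F) (deriv H) (hyperfilter ℕ : Filter ℕ) Set.univ :=
    hlim.deriv (Eventually.of_forall fun n => (h.diff _ (hF n)).differentiableOn) isOpen_univ
  have ht0 : Tendsto (fun n : ℕ => 4 * (1 / (8 * ((n : ℝ) + 1)))) (hyperfilter ℕ : Filter ℕ) (𝓝 0) := by
    have h1 : Tendsto (fun n : ℕ => (1 / 2 : ℝ) * (1 / ((n : ℝ) + 1))) atTop (𝓝 (1 / 2 * 0)) :=
      tendsto_one_div_add_atTop_nhds_zero_nat.const_mul _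
    rw [mul_zero] at h1
    refine (h1.congr fun n => ?_).mono_left Nat.hyperfilter_le_atTop
    field_simp
    norm_num
  rw [← norm_eq_zero]
  refine le_antisymm (le_of_forall_pos_le_add fun ε hε => ?_) (norm_nonneg _)
  rw [zero_add]
  have hcont : Continuous (deriv H) := (hHd.contDiff (n := 1)).continuous_deriv le_rfl
  obtain ⟨δ, hδ, hδH⟩ := Metric.continuousAt_iff.1 (hcont.continuousAt (x := (0 : ℂ))) (ε / 3) (by positivity)
  have hu := (tendstoLocallyUniformlyOn_iff_forall_isCompact isOpen_univ).1 hder (closedBall 0 1) (Set.subset_univ _) (isCompact_closedBall 0 1)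
  rw [Metric.tendstoUniformlyOn_iff] at hu
  have e1 := hu (ε / 3) (by positivity)
  have e2 : ∀ᶠ n : ℕ in (hyperfilter ℕ : Filter ℕ), 4 * (1 / (8 * ((n : ℝ) + 1))) < min (min δ 1) (ε / 3) :=
    ht0.eventually_lt_const (lt_min (lt_min hδ one_pos) (by positivity))
  obtain ⟨n, h1, h2⟩ := (e1.and e2).exists
  rw [lt_min_iff, lt_min_iff] at h2
  have hpos : (0 : ℝ) < 1 / (8 * ((n : ℝ) + 1)) := by positivity
  have hbn : ‖b n‖ < min δ 1 := lt_min ((hb n).trans_lt h2.1.1) ((hb n).trans_lt h2.1.2)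
  have hb0 : 0 < ‖b n‖ := by
    by_contra hb0
    have h3 := hw n 0 (by simp)
    have h4 : b n = 0 := norm_le_zero_iff.1 (not_lt.1 hb0)
    rw [h4] at h3
    simp at h3
  have h5 := (convex_closedBall (0 : ℂ) ‖b n‖).norm_image_sub_le_of_norm_deriv_le (𝕜 := ℂ) (f := fun z => F n z - z • deriv H 0) (C := 2 * ε / 3)
    (x := 0) (y := b n) (fun z _ => ((h.diff _ (hF n)) z).sub (differentiableAt_id.smul_const _)) (fun z hz => by
      have hz' : ‖z‖ ≤ ‖b n‖ := by simpa using hz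
      have h6 : deriv (fun z => F n z - z • deriv H 0) z = deriv (F n) z - deriv H 0 := by
        have h9 : HasDerivAt (fun z => F n z - z • deriv H 0) (deriv (F n) z - (1 : ℂ) • deriv H 0) z :=
          ((h.diff _ (hF n)) z).hasDerivAt.sub ((hasDerivAt_id z).smul_const (deriv H 0))
        rw [h9.deriv, one_smul]
      rw [h6]
      have h7 := h1 z (by
        rw [mem_closedBall_zero_iff]
        exact hz'.trans (hbn.le.trans (min_le_right _ _)))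
      have h8 := @hδH z (by
        rw [dist_zero_right]
        exact hz'.trans_lt (hbn.trans_le (min_le_left _ _)))
      calc ‖deriv (F n) z - deriv H 0‖ = ‖(deriv (F n) z - deriv H z) + (deriv H z - deriv H 0)‖ := by rw [sub_add_sub_cancel]
        _ ≤ ‖deriv (F n) z - deriv H z‖ + ‖deriv H z - deriv H 0‖ := norm_add_le _ _
        _ ≤ ε / 3 + ε / 3 := by
          refine add_le_add ?_ ?_
          · rw [← dist_eq_norm, dist_comm]
            exact h7.le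
          · rw [← dist_eq_norm]
            exact h8.le
        _ = 2 * ε / 3 := by ring) (by simp) (by simp)
  have h6 := hw n 0 (by simp)
  simp only [zero_add, zero_smul, sub_zero] at h5 h6
  have h7 : ‖b n • deriv H 0‖ ≤ (2 * ε / 3 + 1 / (8 * ((n : ℝ) + 1))) * ‖b n‖ := by
    have h8 : b n • deriv H 0 = (F n (b n) - F n 0) - (F n (b n) - b n • deriv H 0 - F n 0) := by abel
    rw [h8]
    refine (norm_sub_le _ _).trans ?_
    rw [add_mul]
    linarith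
  rw [norm_smul, mul_comm] at h7
  have h8 := le_of_mul_le_mul_right h7 hb0
  linarith [h2.2]

/-- closeness on the disc of radius `r` implies closeness on the disc of radius `R` -/
theorem exists_prop (h : Sys KK M γ) (hr : 0 < r) (B R : ℝ) {δ : ℝ} (hδ : 0 < δ) :
    ∃ ε : ℝ, 0 < ε ∧ ∀ F ∈ KK, ∀ H ∈ KK, ‖F 0‖ ≤ B → dQ r F H ≤ ε → ∀ w : ℂ, ‖w‖ ≤ R → ‖H w - F w‖ ≤ δ := by
  by_contra hcon
  push Not at hcon
  have hs : ∀ n : ℕ, ∃ F ∈ KK, ∃ H ∈ KK, ‖F 0‖ ≤ B ∧ dQ r F H ≤ 1 / ((n : ℝ) + 1) ∧ ∃ w : ℂ, ‖w‖ ≤ R ∧ δ < ‖H w - F w‖ := fun n =>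
    hcon _ (by positivity)
  choose F hF H hH h0 hd w hw hwδ using hs
  have hFc : ∀ n, Continuous (F n) := fun n => (h.diff _ (hF n)).continuous
  have hHc : ∀ n, Continuous (H n) := fun n => (h.diff _ (hH n)).continuous
  have hH0 : ∀ n, ‖H n 0‖ ≤ B + 1 := by
    intro n
    have h1 : ‖H n 0 - F n 0‖ ≤ dQ r (F n) (H n) := le_dQ (hFc n) (hHc n) (by simpa using hr.le)
    have h2 : (1 : ℝ) / ((n : ℝ) + 1) ≤ 1 := by
      rw [div_le_one (by positivity)]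
      linarith [(Nat.cast_nonneg n : (0 : ℝ) ≤ n)]
    calc ‖H n 0‖ = ‖(H n 0 - F n 0) + F n 0‖ := by rw [sub_add_cancel]
      _ ≤ ‖H n 0 - F n 0‖ + ‖F n 0‖ := norm_add_le _ _
      _ ≤ B + 1 := by linarith [h0 n, hd n]
  obtain ⟨F₀, hF₀, hlF⟩ := h.cpt (hyperfilter ℕ) Nat.hyperfilter_le_atTop B F hF h0
  obtain ⟨H₀, hH₀, hlH⟩ := h.cpt (hyperfilter ℕ) Nat.hyperfilter_le_atTop (B + 1) H hH hH0
  have hF₀d := h.diff _ hF₀
  have hH₀d := h.diff _ hH₀
  have ht := tendsto_dQ hr.le hFc hHc hF₀d.continuous hH₀d.continuous hlF hlH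
  have h1 : Tendsto (fun n : ℕ => (1 : ℝ) / ((n : ℝ) + 1)) (hyperfilter ℕ : Filter ℕ) (𝓝 0) :=
    tendsto_one_div_add_atTop_nhds_zero_nat.mono_left Nat.hyperfilter_le_atTop
  have h2 : dQ r F₀ H₀ ≤ 0 := le_of_tendsto_of_tendsto' ht h1 hd
  have h3 := eq_of_dQ hF₀d hH₀d hr h2
  subst h3
  have uF := (tendstoLocallyUniformlyOn_iff_forall_isCompact isOpen_univ).1 hlF (closedBall 0 R) (Set.subset_univ _) (isCompact_closedBall 0 R)
  have uH := (tendstoLocallyUniformlyOn_iff_forall_isCompact isOpen_univ).1 hlH (closedBall 0 R) (Set.subset_univ _) (isCompact_closedBall 0 R)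
  rw [Metric.tendstoUniformlyOn_iff] at uF uH
  obtain ⟨n, e1, e2⟩ := ((uF (δ / 2) (by positivity)).and (uH (δ / 2) (by positivity))).exists
  have hwn : w n ∈ closedBall (0 : ℂ) R := by
    rw [mem_closedBall_zero_iff]
    exact hw n
  have e3 := e1 (w n) hwn
  have e4 := e2 (w n) hwn
  have e5 : ‖H n (w n) - F n (w n)‖ ≤ δ := by
    calc ‖H n (w n) - F n (w n)‖ = dist (H n (w n)) (F n (w n)) := (dist_eq_norm _ _).symm
      _ ≤ dist (H n (w n)) (H₀ (w n)) + dist (H₀ (w n)) (F n (w n)) := dist_triangle _ _ _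
      _ ≤ δ := by
        rw [dist_comm (H n (w n))]
        linarith
  exact absurd e5 (not_le.2 (hwδ n))

end Pool.Agent.SR3.G
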