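import Pool.Agent.SR3.G.DQ
import Pool.Agent.SR3.G.Min

/-!
# SR3 G Fast: the deviations do not decay fast

The sum of the deviations converges like `exp (- (c / 2) k / log (2 + k))`: `b k → b∞` with this rate; `LogI` for `F` and `sh b∞ H`: they are equal; then
`dev (z k) b∞ = 0` and the minimality gives `dev (z k) (b k) = 0` for large `k`.
-/

set_option autoImplicit false

open Topology Filter Metric

noncomputable section

namespace Pool.Agent.SR3.G

/-- `k / log (2 + k)` -/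
private def gk (k : ℕ) : ℝ := (k : ℝ) / Real.log (2 + k)

private theorem log_pos' (k : ℕ) : 0 < Real.log (2 + k) := by
  apply Real.log_pos
  have : (0 : ℝ) ≤ k := Nat.cast_nonneg k
  linarith

private theorem gk_nonneg (k : ℕ) : 0 ≤ gk k := div_nonneg (Nat.cast_nonneg k) (log_pos' k).le

private theorem gk_succ (k : ℕ) : gk k ≤ gk (k + 1) := by
  unfold gk
  rw [div_le_div_iff₀ (log_pos' k) (log_pos' (k + 1))]
  rcases Nat.eq_zero_or_pos k with rfl | hk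
  · simp only [Nat.cast_zero, zero_mul, add_zero, zero_add, Nat.cast_one, one_mul]
    exact (Real.log_pos (by norm_num)).le
  · have hk1 : (1 : ℝ) ≤ k := by exact_mod_cast hk
    have h3 : (1 : ℝ) ≤ Real.log (2 + k) := by
      rw [Real.le_log_iff_exp_le (by linarith)]
      have := Real.exp_one_lt_d9
      linarith
    have h4 : Real.log (2 + ((k + 1 : ℕ) : ℝ)) - Real.log (2 + k) ≤ 1 / (2 + k) := by
      rw [← Real.log_div (by positivity) (by positivity)]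
      have h5 : (2 + ((k + 1 : ℕ) : ℝ)) / (2 + k) = 1 + 1 / (2 + k) := by
        push_cast
        field_simp
        ring
      rw [h5]
      have h6 := Real.log_le_sub_one_of_pos (show (0 : ℝ) < 1 + 1 / (2 + k) by positivity)
      linarith
    have h7 : (k : ℝ) * (1 / (2 + k)) ≤ 1 := by
      rw [mul_one_div, div_le_one (by positivity)]
      linarith
    have h8 : (k : ℝ) * (Real.log (2 + ((k + 1 : ℕ) : ℝ)) - Real.log (2 + k)) ≤ 1 :=
      (mul_le_mul_of_nonneg_left h4 (by positivity)).trans h7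
    push_cast at h8 ⊢
    nlinarith

private theorem gk_mono : Monotone gk := monotone_nat_of_le_succ gk_succ

private theorem gk_lower (k : ℕ) : √(2 + k) / 2 - 1 ≤ gk k := by
  have h0 : (0 : ℝ) ≤ k := Nat.cast_nonneg k
  have hs : 0 < √(2 + (k : ℝ)) := Real.sqrt_pos.2 (by linarith)
  have hs1 : 1 ≤ √(2 + (k : ℝ)) := by
    rw [Real.one_le_sqrt]; linarith
  have hlog : Real.log (2 + k) ≤ 2 * √(2 + (k : ℝ)) := by
    have h1 : Real.log (2 + k) = 2 * Real.log (√(2 + (k : ℝ))) := by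
      rw [Real.log_sqrt (by linarith)]
      ring
    rw [h1]
    have h2 := Real.log_le_sub_one_of_pos hs
    linarith
  have h3 : (k : ℝ) / (2 * √(2 + (k : ℝ))) ≤ gk k := by
    unfold gk
    exact div_le_div_of_nonneg_left h0 (log_pos' k) hlog
  refine le_trans ?_ h3
  rw [le_div_iff₀ (by positivity)]
  have h4 : √(2 + (k : ℝ)) ^ 2 = 2 + k := Real.sq_sqrt (by linarith)
  nlinarith

private theorem summable_gk {a : ℝ} (ha : 0 < a) : Summable fun k : ℕ => Real.exp (-(a * gk k)) := by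
  have h1 : Summable fun k : ℕ => Real.exp a * (24 / (a / 2) ^ 4) * (1 / ((k : ℝ) + 1) ^ 2) := by
    refine Summable.mul_left _ ?_
    have h2 : Summable fun k : ℕ => 1 / (((k + 1 : ℕ) : ℝ)) ^ 2 := by
      rw [summable_nat_add_iff (f := fun k : ℕ => 1 / ((k : ℝ)) ^ 2)]
      exact Real.summable_one_div_nat_pow.2 one_lt_two
    simpa using h2
  refine Summable.of_nonneg_of_le (fun k => (Real.exp_pos _).le) (fun k => ?_) h1
  have h0 : (0 : ℝ) ≤ k := Nat.cast_nonneg k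
  have hs : 0 < √(2 + (k : ℝ)) := Real.sqrt_pos.2 (by linarith)
  have h3 := gk_lower k
  have h4 : Real.exp (-(a * gk k)) ≤ Real.exp a * Real.exp (-(a / 2 * √(2 + (k : ℝ)))) := by
    rw [← Real.exp_add, Real.exp_le_exp]
    nlinarith
  refine h4.trans ?_
  rw [mul_assoc]
  refine mul_le_mul_of_nonneg_left ?_ (Real.exp_pos _).le
  have hy : 0 < a / 2 * √(2 + (k : ℝ)) := by positivity
  have h5 := Real.pow_div_factorial_le_exp (a / 2 * √(2 + (k : ℝ))) hy.le 4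
  have h6 : (a / 2 * √(2 + (k : ℝ))) ^ 4 = (a / 2) ^ 4 * (2 + (k : ℝ)) ^ 2 := by
    rw [mul_pow]
    congr 1
    calc √(2 + (k : ℝ)) ^ 4 = (√(2 + (k : ℝ)) ^ 2) ^ 2 := by ring
      _ = _ := by rw [Real.sq_sqrt (by linarith)]
  rw [h6] at h5
  have h7 : ((Nat.factorial 4 : ℕ) : ℝ) = 24 := by norm_num [Nat.factorial]
  rw [h7] at h5
  rw [Real.exp_neg]
  have h8 : 0 < (a / 2) ^ 4 * (2 + (k : ℝ)) ^ 2 / 24 := by positivity
  calc (Real.exp (a / 2 * √(2 + (k : ℝ))))⁻¹ ≤ ((a / 2) ^ 4 * (2 + (k : ℝ)) ^ 2 / 24)⁻¹ := inv_anti₀ h8 h5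
    _ = 24 / (a / 2) ^ 4 * (1 / (2 + (k : ℝ)) ^ 2) := by
      field_simp
    _ ≤ 24 / (a / 2) ^ 4 * (1 / ((k : ℝ) + 1) ^ 2) := by
      refine mul_le_mul_of_nonneg_left ?_ (by positivity)
      refine one_div_le_one_div_of_le (by positivity) ?_
      exact pow_le_pow_left₀ (by positivity) (by linarith) 2

variable {V : Type} [NormedAddCommGroup V] [NormedSpace ℂ V] [CompleteSpace V] {KK : Set (ℂ → V)} {M γ L r b₀ c₁ C₂ ε₀ : ℝ}

/-- the deviations do not decay fast -/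
theorem not_fast (h : Sys KK M γ) (hc : Cst KK M L r b₀ c₁ C₂) (hl : LogI KK M L r) {F H : ℂ → V} {z b : ℤ → ℂ}
    (hp : Asym KK M L r b₀ ε₀ F H z b) (he : ε₀ ≤ c₁ * b₀ / 4) {c : ℝ} (hc0 : 0 < c) :
    ¬ ∀ᶠ k : ℕ in atTop, dev r F H (z k) (b k) ≤ Real.exp (-(c * k / Real.log k)) := by
  intro hfast
  have hr0 : 0 ≤ r := by have := hc.rL; have := hc.L1; linarith
  have hFc : Continuous F := (h.diff F hp.memF).continuous
  have hHc : Continuous H := (h.diff H hp.memH).continuous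
  have hc₁ := hc.c₁_pos
  have hC₂ := hc.C₂_ge
  have hb₀ := hc.b₀_pos
  have he1 : ε₀ ≤ 1 := by
    have h1 := hc.c₁_le
    have h2 := hc.b₀_le
    nlinarith
  set d : ℕ → ℝ := fun k => dev r F H (z k) (b k) with hd
  have hmem : ∀ k : ℕ, (k : ℤ) ∈ Set.Ici (0 : ℤ) := fun k => by
    show (0 : ℤ) ≤ k
    exact Int.natCast_nonneg k
  have hdle : ∀ k, d k ≤ 1 := fun k => (hp.track.le k (hmem k)).trans he1
  obtain ⟨K₀, hK₀⟩ := eventually_atTop.1 (hfast.and (eventually_ge_atTop 2))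
  have hdg : ∀ k, K₀ ≤ k → d k ≤ Real.exp (-(c * gk k)) := by
    intro k hk
    obtain ⟨h1, h2⟩ := hK₀ k hk
    refine h1.trans (Real.exp_le_exp.2 (neg_le_neg ?_))
    unfold gk
    rw [mul_div_assoc]
    refine mul_le_mul_of_nonneg_left ?_ hc0.le
    have hk2 : (2 : ℝ) ≤ k := by exact_mod_cast h2
    refine div_le_div_of_nonneg_left (by linarith) (Real.log_pos (by linarith)) (Real.log_le_log (by linarith) (by linarith))
  have hstep : ∀ k, K₀ ≤ k → ‖b ((k + 1 : ℕ) : ℤ) - b k‖ ≤ 2 / c₁ * Real.exp (-(c * gk k)) := by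
    intro k hk
    have e1 : ((k + 1 : ℕ) : ℤ) = (k : ℤ) + 1 := by push_cast; ring
    have h1 := step h hc hp.memF hp.memH (a := z k) (a' := z ((k + 1 : ℕ) : ℤ)) (b := b k) (b' := b ((k + 1 : ℕ) : ℤ))
      (hp.chain.good _) (by rw [e1]; exact hp.chain.norm k) (hdle (k + 1)) (by
        have h2 := hp.track.near k (hmem k) (by rw [← e1]; exact hmem (k + 1))
        rw [e1]
        linarith)
    have h2 := hdg k hk
    have h3 := hdg (k + 1) (by omega)
    have h4 : Real.exp (-(c * gk (k + 1))) ≤ Real.exp (-(c * gk k)) :=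
      Real.exp_le_exp.2 (neg_le_neg (mul_le_mul_of_nonneg_left (gk_succ k) hc0.le))
    have h5 : c₁ * ‖b ((k + 1 : ℕ) : ℤ) - b k‖ ≤ 2 * Real.exp (-(c * gk k)) := by
      calc c₁ * ‖b ((k + 1 : ℕ) : ℤ) - b k‖ ≤ d k + d (k + 1) := h1
        _ ≤ 2 * Real.exp (-(c * gk k)) := by linarith
    rw [div_mul_eq_mul_div, le_div_iff₀ hc₁]
    linarith
  -- the limit of the shifts
  have hc2 : 0 < c / 2 := half_pos hc0
  have hsum := summable_gk hc2
  obtain ⟨S, hS⟩ : ∃ S : ℝ, S = ∑' m : ℕ, Real.exp (-(c / 2 * gk m)) := ⟨_, rfl⟩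
  have hS0 : 0 ≤ S := by rw [hS]; exact tsum_nonneg fun m => (Real.exp_pos _).le
  have hsplit : ∀ n m : ℕ, Real.exp (-(c * gk (K₀ + (n + m)))) ≤ Real.exp (-(c / 2 * gk (K₀ + n))) * Real.exp (-(c / 2 * gk m)) := by
    intro n m
    rw [← Real.exp_add, Real.exp_le_exp]
    have h1 : gk (K₀ + n) ≤ gk (K₀ + (n + m)) := gk_mono (by omega)
    have h2 : gk m ≤ gk (K₀ + (n + m)) := gk_mono (by omega)
    nlinarith
  set D : ℕ → ℝ := fun n => 2 / c₁ * Real.exp (-(c * gk (K₀ + n))) with hD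
  have hDs : Summable D := by
    refine Summable.mul_left _ ?_
    refine Summable.of_nonneg_of_le (fun n => (Real.exp_pos _).le) (fun n => ?_) (hsum.mul_left (Real.exp (-(c / 2 * gk (K₀ + 0)))))
    have := hsplit 0 n
    rwa [zero_add] at this
  have hdist : ∀ n : ℕ, dist (b ((K₀ + n : ℕ) : ℤ)) (b ((K₀ + n.succ : ℕ) : ℤ)) ≤ D n := by
    intro n
    rw [dist_comm, dist_eq_norm]
    exact hstep (K₀ + n) (by omega)
  obtain ⟨b', hb'⟩ := cauchySeq_tendsto_of_complete (cauchySeq_of_dist_le_of_summable D hdist hDs)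
  have hrate : ∀ n : ℕ, ‖b' - b ((K₀ + n : ℕ) : ℤ)‖ ≤ 2 / c₁ * S * Real.exp (-(c / 2 * gk (K₀ + n))) := by
    intro n
    have h1 := dist_le_tsum_of_dist_le_of_tendsto D hdist hDs hb' n
    rw [← dist_eq_norm, dist_comm]
    refine h1.trans ?_
    have h2 : ∑' m, D (n + m) ≤ ∑' m : ℕ, 2 / c₁ * Real.exp (-(c / 2 * gk (K₀ + n))) * Real.exp (-(c / 2 * gk m)) := by
      refine Summable.tsum_le_tsum (fun m => ?_) ?_ (hsum.mul_left _)
      · rw [hD, mul_assoc]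
        exact mul_le_mul_of_nonneg_left (hsplit n m) (by positivity)
      · have := (summable_nat_add_iff n).2 hDs
        refine this.congr fun m => ?_
        rw [add_comm]
    refine h2.trans (le_of_eq ?_)
    rw [tsum_mul_left, ← hS]
    ring
  have hto : Tendsto (fun n : ℕ => ‖b' - b ((K₀ + n : ℕ) : ℤ)‖) atTop (𝓝 0) := by
    have h1 : Tendsto (fun n : ℕ => b' - b ((K₀ + n : ℕ) : ℤ)) atTop (𝓝 (b' - b')) := tendsto_const_nhds.sub hb'
    rw [sub_self] at h1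
    simpa using h1.norm
  obtain ⟨n₁, hn₁⟩ := eventually_atTop.1 (hto.eventually_lt_const hb₀)
  -- the deviation with the shift `b'`
  have hdev : ∀ k : ℕ, K₀ + n₁ ≤ k → dev r F H (z k) b' ≤ (1 + C₂ * (2 / c₁ * S)) * Real.exp (-(c / 2 * gk k)) := by
    intro k hk
    obtain ⟨n, rfl⟩ : ∃ n, k = K₀ + n := ⟨k - K₀, by omega⟩
    have hn : n₁ ≤ n := by omega
    have h1 := hn₁ n hn
    have h2 : ‖b' - b ((K₀ + n : ℕ) : ℤ)‖ ≤ 2 := by have := hc.b₀_le; linarith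
    have hHk : ‖sh (z ((K₀ + n : ℕ) : ℤ) + b ((K₀ + n : ℕ) : ℤ)) H 0‖ ≤ M + 1 := by
      have h3 := le_dQ (r := r) (sh_cont hFc (z ((K₀ + n : ℕ) : ℤ))) (sh_cont hHc (z ((K₀ + n : ℕ) : ℤ) + b ((K₀ + n : ℕ) : ℤ)))
        (w := 0) (by simpa using hr0)
      have h4 : ‖sh (z ((K₀ + n : ℕ) : ℤ)) F 0‖ ≤ M := by
        show ‖F (0 + z ((K₀ + n : ℕ) : ℤ))‖ ≤ M
        rw [zero_add]
        exact hp.chain.good _
      have h5 : dQ r (sh (z ((K₀ + n : ℕ) : ℤ)) F) (sh (z ((K₀ + n : ℕ) : ℤ) + b ((K₀ + n : ℕ) : ℤ)) H) ≤ 1 := hdle (K₀ + n)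
      calc ‖sh (z ((K₀ + n : ℕ) : ℤ) + b ((K₀ + n : ℕ) : ℤ)) H 0‖
          = ‖sh (z ((K₀ + n : ℕ) : ℤ)) F 0 + (sh (z ((K₀ + n : ℕ) : ℤ) + b ((K₀ + n : ℕ) : ℤ)) H 0 - sh (z ((K₀ + n : ℕ) : ℤ)) F 0)‖ := by
            rw [add_sub_cancel]
        _ ≤ _ := norm_add_le _ _
        _ ≤ M + 1 := add_le_add h4 (h3.trans h5)
    have hlip := hc.lip _ (h.shift H hp.memH (z ((K₀ + n : ℕ) : ℤ) + b ((K₀ + n : ℕ) : ℤ))) hHk
    have h6 : dev r F H (z ((K₀ + n : ℕ) : ℤ)) b' ≤ d (K₀ + n) + C₂ * ‖b' - b ((K₀ + n : ℕ) : ℤ)‖ := by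
      unfold dev
      refine dQ_le hr0 fun w hw => ?_
      have h7 := hlip w (b' - b ((K₀ + n : ℕ) : ℤ)) hw h2
      have h8 := le_dQ (r := r) (sh_cont hFc (z ((K₀ + n : ℕ) : ℤ))) (sh_cont hHc (z ((K₀ + n : ℕ) : ℤ) + b ((K₀ + n : ℕ) : ℤ))) hw
      have e1 : sh (z ((K₀ + n : ℕ) : ℤ) + b') H w = sh (z ((K₀ + n : ℕ) : ℤ) + b ((K₀ + n : ℕ) : ℤ)) H (w + (b' - b ((K₀ + n : ℕ) : ℤ))) := by
        show H _ = H _
        congr 1
        ring
      rw [e1]
      calc ‖sh (z ((K₀ + n : ℕ) : ℤ) + b ((K₀ + n : ℕ) : ℤ)) H (w + (b' - b ((K₀ + n : ℕ) : ℤ))) - sh (z ((K₀ + n : ℕ) : ℤ)) F w‖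
          = ‖(sh (z ((K₀ + n : ℕ) : ℤ) + b ((K₀ + n : ℕ) : ℤ)) H w - sh (z ((K₀ + n : ℕ) : ℤ)) F w) +
            (sh (z ((K₀ + n : ℕ) : ℤ) + b ((K₀ + n : ℕ) : ℤ)) H (w + (b' - b ((K₀ + n : ℕ) : ℤ))) -
              sh (z ((K₀ + n : ℕ) : ℤ) + b ((K₀ + n : ℕ) : ℤ)) H w)‖ := by
            congr 1
            abel
        _ ≤ _ := norm_add_le _ _
        _ ≤ d (K₀ + n) + C₂ * ‖b' - b ((K₀ + n : ℕ) : ℤ)‖ := add_le_add h8 h7
    have h9 := hrate n
    have h10 : d (K₀ + n) ≤ Real.exp (-(c / 2 * gk (K₀ + n))) := by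
      refine (hdg (K₀ + n) (by omega)).trans (Real.exp_le_exp.2 (neg_le_neg ?_))
      have := gk_nonneg (K₀ + n)
      nlinarith
    have h11 : C₂ * ‖b' - b ((K₀ + n : ℕ) : ℤ)‖ ≤ C₂ * (2 / c₁ * S * Real.exp (-(c / 2 * gk (K₀ + n)))) :=
      mul_le_mul_of_nonneg_left h9 (by linarith)
    calc dev r F H (z ((K₀ + n : ℕ) : ℤ)) b' ≤ d (K₀ + n) + C₂ * ‖b' - b ((K₀ + n : ℕ) : ℤ)‖ := h6
      _ ≤ Real.exp (-(c / 2 * gk (K₀ + n))) + C₂ * (2 / c₁ * S * Real.exp (-(c / 2 * gk (K₀ + n)))) := add_le_add h10 h11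
      _ = _ := by ring
  -- the constant for all `k`
  have hdev0 : ∀ k : ℕ, 0 ≤ dev r F H (z k) b' := fun k => dQ_nonneg _ _
  have hA1 : 0 < 1 + C₂ * (2 / c₁ * S) := by positivity
  obtain ⟨T, hT⟩ : ∃ T : ℝ, T = ∑ k ∈ Finset.range (K₀ + n₁), (Real.log (1 + dev r F H (z k) b') + c / 2 * gk k) := ⟨_, rfl⟩
  have hterm : ∀ k : ℕ, 0 ≤ Real.log (1 + dev r F H (z k) b') + c / 2 * gk k := fun k =>
    add_nonneg (Real.log_nonneg (by linarith [hdev0 k])) (mul_nonneg hc2.le (gk_nonneg k))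
  have hT0 : 0 ≤ T := by rw [hT]; exact Finset.sum_nonneg fun k _ => hterm k
  have hall : ∀ k : ℕ, dev r F H (z k) b' ≤ Real.exp ((|Real.log (1 + C₂ * (2 / c₁ * S))| + T) - c / 2 * gk k) := by
    intro k
    by_cases hk : K₀ + n₁ ≤ k
    · refine (hdev k hk).trans ?_
      have h1 : 1 + C₂ * (2 / c₁ * S) ≤ Real.exp (|Real.log (1 + C₂ * (2 / c₁ * S))| + T) := by
        rw [← Real.log_le_iff_le_exp hA1]
        exact (le_abs_self _).trans (by linarith)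
      rw [sub_eq_add_neg, Real.exp_add]
      exact mul_le_mul_of_nonneg_right h1 (Real.exp_pos _).le
    · have hk' : k ∈ Finset.range (K₀ + n₁) := Finset.mem_range.2 (by omega)
      have h1 : Real.log (1 + dev r F H (z k) b') + c / 2 * gk k ≤ T := by
        rw [hT]
        exact Finset.single_le_sum (f := fun k : ℕ => Real.log (1 + dev r F H (z k) b') + c / 2 * gk k) (fun k _ => hterm k) hk'
      have h2 : 1 + dev r F H (z k) b' ≤ Real.exp ((|Real.log (1 + C₂ * (2 / c₁ * S))| + T) - c / 2 * gk k) := by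
        rw [← Real.log_le_iff_le_exp (by linarith [hdev0 k])]
        have := abs_nonneg (Real.log (1 + C₂ * (2 / c₁ * S)))
        linarith
      linarith
  have heq : sh b' H = F := by
    refine hl F hp.memF (sh b' H) (h.shift H hp.memH b') z hp.chain (c / 2) (|Real.log (1 + C₂ * (2 / c₁ * S))| + T) hc2 ?_
    intro k w hw
    have h1 := le_dQ (r := r) (sh_cont hFc (z k)) (sh_cont hHc (z k + b')) hw
    have e1 : sh (z k + b') H w = sh b' H (z k + w) := by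
      show H _ = H _
      congr 1
      ring
    have e2 : sh (z k) F w = F (z k + w) := by
      show F _ = F _
      congr 1
      ring
    rw [e1, e2] at h1
    exact h1.trans (hall k)
  -- contradiction
  have hzero : dev r F H (z ((K₀ + n₁ : ℕ) : ℤ)) b' ≤ 0 := by
    unfold dev
    refine dQ_le hr0 fun w _ => ?_
    have e1 : sh (z ((K₀ + n₁ : ℕ) : ℤ) + b') H w = sh (z ((K₀ + n₁ : ℕ) : ℤ)) F w := by
      rw [← heq]
      show H _ = H _
      congr 1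
      ring
    rw [e1, sub_self, norm_zero]
  have hmin := hp.track.min ((K₀ + n₁ : ℕ) : ℤ) (hmem _) b' (hn₁ n₁ le_rfl).le
  have hpos := hp.pos ((K₀ + n₁ : ℕ) : ℤ) (Int.natCast_nonneg _)
  linarith

end Pool.Agent.SR3.G
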