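import Pool.Agent.SR3.G.FitU

/-!
# SR3 G MemD: the good points are dense along the horizontal line (helper59)
-/

set_option autoImplicit false

open Topology Filter Metric

noncomputable section

namespace Pool.Agent.SR3.G


open Pool.Agent.H36.BP (EN)
open Pool.Agent.SR3 (Geo)
open Pool.Agent.SR3.Geo (Gd)

variable {N : ℕ} {G : Geo N} {T : Set (EN N)} {rho : EN N → ℝ} {δ γ A' B : ℝ} {β β' : G.ι → ℝ} {q : G.J → ℂ} {F : ℂ → EN N} {𝒬 : Set (EN N → ℂ)}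

private theorem MemD_lin (β β' : ℝ) (a : ℂ) (t : ℝ) : Pool.Agent.SR3.lin Complex.I a β β' (a + t) = 0 := by
  have h : Pool.Agent.SR3.yy Complex.I a (a + t) = 0 := by
    simp [Pool.Agent.SR3.yy]
  simp [Pool.Agent.SR3.lin, h]

/-- `log ‖F‖` along the horizontal line through a good point -/
private theorem MemD_log (hG : G.Ok) (hs : Str G T rho δ γ A' B) :
    ∃ C : ℝ, 0 ≤ C ∧ ∀ (β β' : G.ι → ℝ) (q : G.J → ℂ) (F : ℂ → EN N), Mem G T rho δ γ A' B β β' q F → ∀ a ∈ Gd rho δ F, ∀ t : ℝ,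
      Real.log ‖F (a + t)‖ ≤ C * (2 + |t|) ^ γ := by
  obtain ⟨C₀, hC₀⟩ := hG.cmp
  refine ⟨|C₀| + ∑ i, (G.b i : ℝ) * B, ?_, ?_⟩
  · have := hs.B_pos
    have h2 : 0 ≤ ∑ i, (G.b i : ℝ) * B := Finset.sum_nonneg fun i _ => by positivity
    positivity
  intro β β' q F hm a ha t
  have hK := hm.cl.ent.mem (a + t)
  have h1 := hC₀ _ hK
  rw [hm.cl.nm, norm_one, Real.log_one, sub_zero] at h1
  obtain ⟨-, -, hfit⟩ := fits_all hs hm ha
  have hp1 : 1 ≤ (2 + |t|) ^ γ := Real.one_le_rpow (by linarith [abs_nonneg t]) hs.γ_pos.le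
  have h2 : ∀ i, G.lam i (F (a + t)) ≤ B * (2 + |t|) ^ γ := by
    intro i
    have h3 := hfit (a + t) (Set.mem_univ _) i
    rw [MemD_lin, sub_zero] at h3
    have h4 := (abs_le.1 h3).2
    have e : ‖a + (t : ℂ) - a‖ = |t| := by
      rw [add_sub_cancel_left, Complex.norm_real, Real.norm_eq_abs]
    simp only [Pool.Agent.SR3.pw, e] at h4
    exact h4
  have h5 : ∑ i, (G.b i : ℝ) * G.lam i (F (a + t)) ≤ (∑ i, (G.b i : ℝ) * B) * (2 + |t|) ^ γ := by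
    rw [Finset.sum_mul]
    refine Finset.sum_le_sum fun i _ => ?_
    rw [mul_assoc]
    exact mul_le_mul_of_nonneg_left (h2 i) (Nat.cast_nonneg _)
  have h6 : (G.h : ℝ) * Real.log ‖F (a + t)‖ ≤ (|C₀| + ∑ i, (G.b i : ℝ) * B) * (2 + |t|) ^ γ := by
    have h7 := (abs_le.1 h1).2
    have h8 : C₀ ≤ |C₀| * (2 + |t|) ^ γ := by
      calc C₀ ≤ |C₀| := le_abs_self _
        _ = |C₀| * 1 := (mul_one _).symm
        _ ≤ |C₀| * (2 + |t|) ^ γ := mul_le_mul_of_nonneg_left hp1 (abs_nonneg _)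
    rw [add_mul]
    linarith
  have hh : (1 : ℝ) ≤ G.h := by
    have : 1 ≤ G.h := hG.aff.pos ()
    exact_mod_cast this
  rcases le_total (Real.log ‖F (a + t)‖) 0 with hl | hl
  · refine hl.trans ?_
    have := hs.B_pos
    have h2' : 0 ≤ ∑ i, (G.b i : ℝ) * B := Finset.sum_nonneg fun i _ => by positivity
    positivity
  · nlinarith

private theorem MemD_step {γ C c B₁ : ℝ} (h0 : 0 < γ) (h1 : γ < 1) (hC : 0 ≤ C) (hc : 0 < c) :
    ∃ t : ℝ, 1 ≤ t ∧ C * (2 + t) ^ γ + B₁ < c * (t / 2) := by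
  have h2 := (tendsto_rpow_neg_atTop (y := 1 - γ) (by linarith)).comp (tendsto_atTop_add_const_left atTop (2 : ℝ) tendsto_id)
  have h3 : ∀ᶠ t : ℝ in atTop, (2 + t) ^ (-(1 - γ)) < c / (8 * (C + 1)) := by
    have := (h2.eventually (gt_mem_nhds (show (0 : ℝ) < c / (8 * (C + 1)) by positivity)))
    simpa [Function.comp] using this
  obtain ⟨t, ht, ht1, ht2⟩ := (h3.and ((eventually_ge_atTop (1 : ℝ)).and (eventually_gt_atTop ((8 * B₁ + 2 * c) / (3 * c))))).exists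
  refine ⟨t, ht1, ?_⟩
  have h4 : (2 + t) ^ γ = (2 + t) ^ (-(1 - γ)) * (2 + t) := by
    conv_rhs => rw [← Real.rpow_one (2 + t), ← Real.rpow_mul (by linarith), one_mul]
    rw [← Real.rpow_add (by linarith)]
    congr 1; ring
  have h5 : (2 + t) ^ γ ≤ c / (8 * (C + 1)) * (2 + t) := by
    rw [h4]
    exact mul_le_mul_of_nonneg_right ht.le (by linarith)
  have h6 : C * (2 + t) ^ γ ≤ c / 8 * (2 + t) := by
    calc C * (2 + t) ^ γ ≤ C * (c / (8 * (C + 1)) * (2 + t)) := mul_le_mul_of_nonneg_left h5 hC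
      _ = (C / (C + 1)) * (c / 8 * (2 + t)) := by
          field_simp
      _ ≤ 1 * (c / 8 * (2 + t)) := by
          apply mul_le_mul_of_nonneg_right _ (by positivity)
          rw [div_le_one (by linarith)]; linarith
      _ = _ := one_mul _
  rw [div_lt_iff₀ (by positivity)] at ht2
  nlinarith

private theorem MemD_iter {S : Set ℂ} {t : ℝ} (ht : 0 < t) (hr : ∀ a ∈ S, ∃ b ∈ S, a.re + t / 2 ≤ b.re ∧ b.re ≤ a.re + 3 * t / 2)
    (hl : ∀ a ∈ S, ∃ b ∈ S, b.re + t / 2 ≤ a.re ∧ a.re ≤ b.re + 3 * t / 2) (n : ℕ) :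
    ∀ a ∈ S, ∀ x : ℝ, |x - a.re| ≤ n * (t / 2) → ∃ z ∈ S, |z.re - x| ≤ 2 * t := by
  induction n with
  | zero =>
    intro a ha x hx
    refine ⟨a, ha, ?_⟩
    rw [abs_sub_comm]
    simp only [Nat.cast_zero, zero_mul] at hx
    linarith
  | succ n ih =>
    intro a ha x hx
    push_cast at hx
    rcases le_or_gt (|x - a.re|) (2 * t) with h | h
    · exact ⟨a, ha, by rw [abs_sub_comm]; exact h⟩
    rcases le_total a.re x with h1 | h1
    · obtain ⟨b, hb, hb1, hb2⟩ := hr a ha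
      rw [abs_of_nonneg (by linarith)] at hx h
      refine ih b hb x ?_
      rw [abs_of_nonneg (by linarith)]
      linarith
    · obtain ⟨b, hb, hb1, hb2⟩ := hl a ha
      rw [abs_of_nonpos (by linarith)] at hx h
      refine ih b hb x ?_
      rw [abs_of_nonpos (by linarith)]
      linarith

/-- `M₀` bounds `‖F‖` at the good points; on the horizontal line through a good point `a`, `log ‖F (a + t)‖ ≤ C pw γ t`, so (`lower`) there is a good
point `a₁` with `t / 2 ≤ Re (a₁ - a) ≤ 3 t / 2` for a large fixed `t`; iterate in both directions. -/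
theorem mem_dense (hG : G.Ok) (hf : Facts G T rho δ γ A' B) :
    ∃ M₀ : ℝ, 0 ≤ M₀ ∧ (∀ (q : G.J → ℂ) (F : ℂ → EN N), G.Cl T q F → ∀ a ∈ Gd rho δ F, ‖F a‖ ≤ M₀) ∧
      ∀ β β' : G.ι → ℝ, ∃ l : ℝ, ∀ (q : G.J → ℂ) (F : ℂ → EN N), Mem G T rho δ γ A' B β β' q F → ‖F 0‖ ≤ M₀ → ∀ x : ℝ, ∃ z : ℂ, |z.re - x| ≤ l ∧ ‖F z‖ ≤ M₀ := by
  obtain ⟨B₁, hB₁, hgr⟩ := hf.growth
  have hM : ∀ (q : G.J → ℂ) (F : ℂ → EN N), G.Cl T q F → ∀ a ∈ Gd rho δ F, ‖F a‖ ≤ Real.exp B₁ := by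
    intro q F hF a ha
    have h1 := hgr q F hF a
    rw [infDist_zero_of_mem ha, add_zero, mul_one] at h1
    rcases (norm_nonneg (F a)).eq_or_lt with h0 | h0
    · rw [← h0]; exact (Real.exp_pos _).le
    · rw [← Real.exp_log h0]; exact Real.exp_le_exp.2 h1
  refine ⟨Real.exp B₁, (Real.exp_pos _).le, hM, ?_⟩
  intro β β'
  obtain ⟨C, hC, hlog⟩ := MemD_log hG hf.str
  obtain ⟨c, B₂, hc, hlow⟩ := hf.lower
  obtain ⟨t, ht1, ht⟩ := MemD_step (B₁ := B₂) hf.str.γ_pos hf.str.γ_lt hC hc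
  refine ⟨2 * t, ?_⟩
  intro q F hm _ x
  have key : ∀ a ∈ Gd rho δ F, ∀ s : ℝ, |s| = t → ∃ b ∈ Gd rho δ F, ‖b - (a + s)‖ < t / 2 := by
    intro a ha s hs
    have h1 := hlog β β' q F hm a ha s
    have h2 := hlow q F hm.cl (a + s)
    rw [hs] at h1
    have h3 : c * infDist (a + (s : ℂ)) (Gd rho δ F) < c * (t / 2) := by linarith
    have h4 := lt_of_mul_lt_mul_left h3 hc.le
    obtain ⟨b, hb, hb'⟩ := (infDist_lt_iff (hf.good q F hm.cl)).1 h4
    refine ⟨b, hb, ?_⟩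
    rw [← dist_eq_norm, dist_comm]
    exact hb'
  have hr : ∀ a ∈ Gd rho δ F, ∃ b ∈ Gd rho δ F, a.re + t / 2 ≤ b.re ∧ b.re ≤ a.re + 3 * t / 2 := by
    intro a ha
    obtain ⟨b, hb, hb'⟩ := key a ha t (abs_of_pos (by linarith))
    have h1 := (Complex.abs_re_le_norm _).trans hb'.le
    simp only [Complex.sub_re, Complex.add_re, Complex.ofReal_re] at h1
    have h2 := abs_le.1 h1
    exact ⟨b, hb, by linarith [h2.1], by linarith [h2.2]⟩
  have hl : ∀ a ∈ Gd rho δ F, ∃ b ∈ Gd rho δ F, b.re + t / 2 ≤ a.re ∧ a.re ≤ b.re + 3 * t / 2 := by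
    intro a ha
    obtain ⟨b, hb, hb'⟩ := key a ha (-t) (by rw [abs_neg]; exact abs_of_pos (by linarith))
    have h1 := (Complex.abs_re_le_norm _).trans hb'.le
    simp only [Complex.sub_re, Complex.add_re, Complex.ofReal_re] at h1
    have h2 := abs_le.1 h1
    exact ⟨b, hb, by linarith [h2.2], by linarith [h2.1]⟩
  obtain ⟨a₀, ha₀⟩ := hf.good q F hm.cl
  obtain ⟨n, hn⟩ := exists_nat_ge (|x - a₀.re| / (t / 2))
  rw [div_le_iff₀ (by linarith)] at hn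
  obtain ⟨z, hz, hz'⟩ := MemD_iter (by linarith) hr hl n a₀ ha₀ x hn
  exact ⟨z, hz', hM q F hm.cl z hz⟩

end Pool.Agent.SR3.G
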