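import Pool.Agent.H17EF.Alg
import Pool.Agent.H17EF.Bridge

/-!
# SR3 G PerG: periodic curves of exponential type on a surface are algebraically degenerate (helper92)

Counting: a form `Q` of degree `d` outside the ideal such that `g z = Q (F z)` vanishes at `0` to the order `K d`.  By the period `g` vanishes to this order at
the points `n ω`, and `|g z| ≤ C exp (d B (1 + |z|))`: for `K` large `g = 0`.
-/

set_option autoImplicit false

open Topology Filter Metric MvPolynomial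

noncomputable section

namespace Pool.Agent.SR3.G

open Pool.Agent.H36.BP (EN)
open Pool.Agent.H17EF (coneE exists_form_of_conditions analyticAt_eval exists_bound eval_smul_form div_list)
open Pool.Agent.H17LG.Variety (FunField)
open Pool.Agent.H62.FC (Homog)

/-- the bound of a form -/
private theorem per_bd {N : ℕ} {Q : MvPolynomial (Fin (N + 1)) ℂ} {d : ℕ} (hQ : Q.IsHomogeneous d) : ∃ B : ℝ, 0 < B ∧ ∀ x : EN N, x ≠ 0 →
    ‖eval x.ofLp Q‖ ≤ B * ‖x‖ ^ d := by
  obtain ⟨B, hB0, hB⟩ := exists_bound Q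
  refine ⟨B, hB0, fun x hx => ?_⟩
  have hxn : 0 < ‖x‖ := norm_pos_iff.2 hx
  have hxc : (‖x‖ : ℂ) ≠ 0 := by simpa using hx
  have h1 : ‖(‖x‖ : ℂ)⁻¹ • x.ofLp‖ ≤ 1 := by
    rw [norm_smul, norm_inv, Complex.norm_real, norm_norm, inv_mul_le_iff₀ hxn, mul_one]
    exact (pi_norm_le_iff_of_nonneg (norm_nonneg x)).2 fun i => PiLp.norm_apply_le x i
  have h2 : x.ofLp = (‖x‖ : ℂ) • ((‖x‖ : ℂ)⁻¹ • x.ofLp) := by rw [smul_smul, mul_inv_cancel₀ hxc, one_smul]
  rw [h2, eval_smul_form hQ, norm_mul, norm_pow, Complex.norm_real, norm_norm, mul_comm]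
  exact mul_le_mul_of_nonneg_right (hB _ h1) (by positivity)

/-- a periodic function with a zero of high order has small values -/
private theorem per_est {g : ℂ → ℂ} (hg : Differentiable ℂ g) {ω : ℂ} (hω : ω ≠ 0) (hper : ∀ z, g (z + ω) = g z) {μ : ℕ}
    (hμ : (μ : ℕ∞) ≤ analyticOrderAt g 0) {T : ℕ} (hT : 1 ≤ T) {B : ℝ} (hB : ∀ z ∈ ball (0 : ℂ) (4 * (‖ω‖ * T)), ‖g z‖ ≤ B) {z₀ : ℂ}
    (hz₀ : ‖z₀‖ ≤ ‖ω‖ * T) : ‖g z₀‖ ≤ B * (2 / 3) ^ (μ * (2 * T + 1)) := by
  classical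
  have hω0 : 0 < ‖ω‖ := norm_pos_iff.2 hω
  have hT0 : (0 : ℝ) < T := by exact_mod_cast hT
  obtain ⟨r, hr⟩ : ∃ r : ℝ, r = 4 * (‖ω‖ * T) := ⟨_, rfl⟩
  have hr0 : 0 < r := by rw [hr]; positivity
  have hr4 : r / 4 = ‖ω‖ * T := by rw [hr]; ring
  rw [← hr] at hB
  rw [← hr4] at hz₀
  have hpern : ∀ (n : ℕ) (z : ℂ), g (z + n * ω) = g z := by
    intro n
    induction n with
    | zero => intro z; simp
    | succ n ih =>
      intro z
      have h1 : z + ((n + 1 : ℕ) : ℂ) * ω = z + n * ω + ω := by push_cast; ring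
      rw [h1, hper, ih]
  have hperz : ∀ (n : ℤ) (z : ℂ), g (z + n * ω) = g z := by
    intro n z
    rcases le_total 0 n with hn | hn
    · obtain ⟨k, rfl⟩ := Int.eq_ofNat_of_zero_le hn
      have := hpern k z
      simpa using this
    · obtain ⟨k, hk⟩ : ∃ k : ℕ, n = -(k : ℤ) := ⟨(-n).toNat, by omega⟩
      have h1 := hpern k (z + n * ω)
      rw [← h1]
      congr 1
      rw [hk]
      push_cast
      ring
  obtain ⟨S, hS⟩ : ∃ S : Finset ℂ, S = (Finset.Icc (-(T : ℤ)) T).image fun n : ℤ => (n : ℂ) * ω := ⟨_, rfl⟩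
  have hinj : Function.Injective fun n : ℤ => (n : ℂ) * ω := by
    intro a b hab
    have h1 := mul_right_cancel₀ hω hab
    exact_mod_cast h1
  have hcard : S.card = 2 * T + 1 := by
    rw [hS, Finset.card_image_of_injective _ hinj, Int.card_Icc]
    omega
  have hSr : ∀ w ∈ S, ‖w‖ ≤ r / 4 := by
    intro w hw
    rw [hS, Finset.mem_image] at hw
    obtain ⟨n, hn, rfl⟩ := hw
    rw [Finset.mem_Icc] at hn
    have h1 : |(n : ℝ)| ≤ T := abs_le.2 ⟨by exact_mod_cast hn.1, by exact_mod_cast hn.2⟩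
    rw [norm_mul, Complex.norm_intCast, hr4, mul_comm]
    exact mul_le_mul_of_nonneg_left h1 hω0.le
  have hordS : ∀ w ∈ S, (μ : ℕ∞) ≤ analyticOrderAt g w := by
    intro w hw
    rw [hS, Finset.mem_image] at hw
    obtain ⟨n, -, rfl⟩ := hw
    rw [natCast_le_analyticOrderAt (hg.analyticAt 0)] at hμ
    obtain ⟨h, hh, hh'⟩ := hμ
    have ht : Tendsto (fun z : ℂ => z - (n : ℂ) * ω) (𝓝 ((n : ℂ) * ω)) (𝓝 0) := by
      have h1 : ContinuousAt (fun z : ℂ => z - (n : ℂ) * ω) ((n : ℂ) * ω) := by fun_prop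
      rwa [ContinuousAt, sub_self] at h1
    rw [natCast_le_analyticOrderAt (hg.analyticAt _)]
    refine ⟨fun z => h (z - n * ω), AnalyticAt.comp_of_eq hh (by fun_prop) (sub_self _), ?_⟩
    filter_upwards [ht.eventually hh'] with z hz
    have h1 := hperz n (z - n * ω)
    rw [sub_add_cancel] at h1
    rw [h1, hz, sub_zero]
  obtain ⟨l, hl⟩ : ∃ l : List ℂ, l = (List.replicate μ S.toList).flatten := ⟨_, rfl⟩
  have hlmem : ∀ w ∈ l, w ∈ S := by
    intro w hw
    rw [hl, List.mem_flatten] at hw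
    obtain ⟨l', hl', hw⟩ := hw
    rw [List.mem_replicate] at hl'
    rw [hl'.2, Finset.mem_toList] at hw
    exact hw
  have hlcount : ∀ w, l.count w = if w ∈ S then μ else 0 := by
    intro w
    rw [hl, List.count_flatten, List.map_replicate, List.sum_replicate]
    split_ifs with hw
    · rw [List.count_eq_one_of_mem S.nodup_toList (Finset.mem_toList.2 hw)]
      simp
    · rw [List.count_eq_zero_of_not_mem (by rwa [Finset.mem_toList])]
      simp
  have hllen : l.length = μ * (2 * T + 1) := by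
    rw [hl, List.length_flatten, List.map_replicate, List.sum_replicate, Finset.length_toList, hcard]
    simp
  obtain ⟨g₁, h1d, h1f, h1B⟩ := div_list hr0 l hg.differentiableOn hB (fun w hw => hSr w (hlmem w hw)) (by
    intro w
    rw [hlcount]
    split_ifs with hw
    · exact hordS w hw
    · simp)
  have hz₀b : z₀ ∈ ball (0 : ℂ) r := by
    rw [mem_ball_zero_iff]
    linarith
  have hprle : ∀ l : List ℂ, (∀ w ∈ l, ‖w‖ ≤ r / 4) → ‖(l.map fun w => z₀ - w).prod‖ ≤ (r / 2) ^ l.length := by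
    intro l
    induction l with
    | nil => simp
    | cons a l ih =>
      intro h
      simp only [List.map_cons, List.prod_cons, norm_mul, List.length_cons, pow_succ']
      have h7 : ‖z₀ - a‖ ≤ r / 2 := by
        refine (norm_sub_le _ _).trans ?_
        have := h a List.mem_cons_self
        linarith
      exact mul_le_mul h7 (ih fun w hw => h w (List.mem_cons_of_mem _ hw)) (norm_nonneg _) (by positivity)
  rw [h1f z₀, norm_mul]
  calc ‖(l.map fun w => z₀ - w).prod‖ * ‖g₁ z₀‖ ≤ (r / 2) ^ l.length * (B * (4 / (3 * r)) ^ l.length) :=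
        mul_le_mul (hprle l fun w hw => hSr w (hlmem w hw)) (h1B z₀ hz₀b) (norm_nonneg _) (by positivity)
    _ = B * ((r / 2) * (4 / (3 * r))) ^ l.length := by rw [mul_pow]; ring
    _ = B * (2 / 3) ^ (μ * (2 * T + 1)) := by
      rw [hllen]
      congr 2
      field_simp
      norm_num

theorem per_degenerate {N : ℕ} {P : Ideal (MvPolynomial (Fin (N + 1)) ℂ)} [P.IsPrime] (_hP : Homog P) (hdim : ∃ z : Fin 2 → FunField P, IsTranscendenceBasis ℂ z)
    {F : ℂ → EN N} (hF : Differentiable ℂ F) (hX : ∀ z, F z ∈ coneE P) {ω : ℂ} (hω : ω ≠ 0) (hper : ∀ z, F (z + ω) = F z)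
    (hgr : ∃ B : ℝ, ∀ z, Real.log ‖F z‖ ≤ B * (1 + ‖z‖)) :
    ∃ (R : MvPolynomial (Fin (N + 1)) ℂ) (d : ℕ), R.IsHomogeneous d ∧ R ∉ P ∧ ∀ z, MvPolynomial.eval (F z).ofLp R = 0 := by
  obtain ⟨zz, hz⟩ := hdim
  obtain ⟨B₀, hB₀⟩ := hgr
  have hne : ∀ z, (F z).ofLp ≠ 0 := fun z => (hX z).1
  have hne' : ∀ z, F z ≠ 0 := fun z h => hne z (by rw [h]; rfl)
  have hFd : Differentiable ℂ fun z => (F z).ofLp := (PiLp.continuousLinearEquiv 2 ℂ (fun _ : Fin (N + 1) => ℂ)).differentiable.comp hF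
  have hXP : ∃ i, (X i : MvPolynomial (Fin (N + 1)) ℂ) ∉ P := by
    by_contra hcon
    push Not at hcon
    apply hne 0
    funext i
    have h1 : eval (F 0).ofLp (X i) = 0 := (hX 0).2 _ (hcon i)
    simpa using h1
  obtain ⟨B, hB⟩ : ∃ B : ℝ, B = |B₀| := ⟨_, rfl⟩
  have hB0 : 0 ≤ B := by rw [hB]; exact abs_nonneg _
  obtain ⟨K, hK⟩ := exists_nat_ge (6 * ‖ω‖ * B + 2)
  obtain ⟨d, hd, hL⟩ := exists_form_of_conditions hz hXP K
  let L : MvPolynomial (Fin (N + 1)) ℂ →ₗ[ℂ] (Fin (K * d) → ℂ) :=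
    { toFun := fun Q k => iteratedDeriv k (fun z => eval (F z).ofLp Q) 0
      map_add' := by
        intro Q R
        funext k
        have e1 : (fun z => eval (F z).ofLp (Q + R)) = (fun z => eval (F z).ofLp Q) + fun z => eval (F z).ofLp R := by
          funext z; simp
        rw [e1, iteratedDeriv_add (analyticAt_eval (hFd.analyticAt 0) Q).contDiffAt (analyticAt_eval (hFd.analyticAt 0) R).contDiffAt]
        rfl
      map_smul' := by
        intro c Q
        funext k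
        have e1 : (fun z => eval (F z).ofLp (c • Q)) = c • fun z => eval (F z).ofLp Q := by
          funext z; simp [MvPolynomial.smul_eval]
        rw [e1, iteratedDeriv_const_smul (analyticAt_eval (hFd.analyticAt 0) Q).contDiffAt]
        rfl }
  obtain ⟨Q, hQ, hQP, hLQ⟩ := hL L
  refine ⟨Q, d, hQ, hQP, ?_⟩
  obtain ⟨g, hg⟩ : ∃ g : ℂ → ℂ, g = fun z => eval (F z).ofLp Q := ⟨_, rfl⟩
  have hgd : Differentiable ℂ g := by
    rw [hg]
    exact fun z => (analyticAt_eval (hFd.analyticAt z) Q).differentiableAt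
  have hgper : ∀ z, g (z + ω) = g z := by
    intro z
    rw [hg]
    show eval (F (z + ω)).ofLp Q = eval (F z).ofLp Q
    rw [hper]
  have hμ : ((K * d : ℕ) : ℕ∞) ≤ analyticOrderAt g 0 := by
    rw [hg, natCast_le_analyticOrderAt_iff_iteratedDeriv_eq_zero (analyticAt_eval (hFd.analyticAt 0) Q)]
    intro k hk
    exact congrFun hLQ ⟨k, hk⟩
  obtain ⟨BQ, hBQ0, hBQ⟩ := per_bd hQ
  have hgb : ∀ z, ‖g z‖ ≤ BQ * Real.exp (d * (B * (1 + ‖z‖))) := by
    intro z
    rw [hg]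
    refine (hBQ (F z) (hne' z)).trans (mul_le_mul_of_nonneg_left ?_ hBQ0.le)
    have h1 : 0 < ‖F z‖ := norm_pos_iff.2 (hne' z)
    have h2 : Real.log ‖F z‖ ≤ B * (1 + ‖z‖) := by
      refine (hB₀ z).trans (mul_le_mul_of_nonneg_right ?_ (by positivity))
      rw [hB]
      exact le_abs_self _
    rw [Real.exp_nat_mul, ← Real.exp_log h1]
    exact pow_le_pow_left₀ (Real.exp_pos _).le (Real.exp_le_exp.2 h2) d
  intro z₀
  have hω0 : 0 < ‖ω‖ := norm_pos_iff.2 hω
  have hd1 : (1 : ℝ) ≤ d := by exact_mod_cast hd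
  have hlim : Tendsto (fun T : ℕ => BQ * Real.exp (d * B) * Real.exp (-(T : ℝ))) atTop (𝓝 0) := by
    have h1 : Tendsto (fun T : ℕ => Real.exp (-(T : ℝ))) atTop (𝓝 0) :=
      Real.tendsto_exp_neg_atTop_nhds_zero.comp tendsto_natCast_atTop_atTop
    simpa using h1.const_mul (BQ * Real.exp (d * B))
  have hev : ∀ᶠ T : ℕ in atTop, ‖g z₀‖ ≤ BQ * Real.exp (d * B) * Real.exp (-(T : ℝ)) := by
    have h1 : ∀ᶠ T : ℕ in atTop, ‖z₀‖ / ‖ω‖ ≤ (T : ℝ) := tendsto_natCast_atTop_atTop.eventually_ge_atTop _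
    filter_upwards [h1, eventually_ge_atTop 1] with T hT1 hT2
    have h2 : ‖z₀‖ ≤ ‖ω‖ * T := by
      rw [div_le_iff₀ hω0] at hT1
      linarith
    have h3 := per_est hgd hω hgper hμ hT2 (B := BQ * Real.exp (d * (B * (1 + 4 * (‖ω‖ * T))))) (fun z hz => by
      rw [mem_ball_zero_iff] at hz
      refine (hgb z).trans (mul_le_mul_of_nonneg_left (Real.exp_le_exp.2 ?_) hBQ0.le)
      exact mul_le_mul_of_nonneg_left (mul_le_mul_of_nonneg_left (by linarith) hB0) (by positivity)) h2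
    refine h3.trans ?_
    have h4 : (2 / 3 : ℝ) ≤ Real.exp (-(1 / 3)) := by
      have := Real.add_one_le_exp (-(1 / 3) : ℝ)
      linarith
    have h5 : (2 / 3 : ℝ) ^ (K * d * (2 * T + 1)) ≤ Real.exp (((K * d * (2 * T + 1) : ℕ) : ℝ) * (-(1 / 3))) := by
      rw [Real.exp_nat_mul]
      exact pow_le_pow_left₀ (by norm_num) h4 _
    calc BQ * Real.exp (d * (B * (1 + 4 * (‖ω‖ * T)))) * (2 / 3) ^ (K * d * (2 * T + 1))
        ≤ BQ * Real.exp (d * (B * (1 + 4 * (‖ω‖ * T)))) * Real.exp (((K * d * (2 * T + 1) : ℕ) : ℝ) * (-(1 / 3))) :=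
          mul_le_mul_of_nonneg_left h5 (by positivity)
      _ = BQ * Real.exp (d * (B * (1 + 4 * (‖ω‖ * T))) + ((K * d * (2 * T + 1) : ℕ) : ℝ) * (-(1 / 3))) := by
          rw [Real.exp_add]; ring
      _ ≤ BQ * Real.exp (d * B + -(T : ℝ)) := by
          refine mul_le_mul_of_nonneg_left (Real.exp_le_exp.2 ?_) hBQ0.le
          push_cast
          have hT0 : (1 : ℝ) ≤ T := by exact_mod_cast hT2
          have h6 : (d : ℝ) * T * (6 * ‖ω‖ * B + 2) ≤ d * T * K := mul_le_mul_of_nonneg_left hK (by positivity)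
          have h7 : (0 : ℝ) ≤ K * d := by positivity
          have h8 : (T : ℝ) ≤ d * T := by nlinarith
          nlinarith
      _ = BQ * Real.exp (d * B) * Real.exp (-(T : ℝ)) := by rw [Real.exp_add]; ring
  have h9 : ‖g z₀‖ ≤ 0 := ge_of_tendsto hlim hev
  have h10 : g z₀ = 0 := norm_le_zero_iff.1 h9
  rw [hg] at h10
  exact h10

end Pool.Agent.SR3.G
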